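import Pool.Agent.Helper24_Core.Defs

set_option autoImplicit false

open Set Topology Filter

namespace Pool.Agent.Helper24_Core

/-- The fibres of a continuous map with connected fibres on a compact space form an upper
semicontinuous decomposition. -/
theorem isUsc_ker {X Y : Type} [TopologicalSpace X] [CompactSpace X] [TopologicalSpace Y]
    [T2Space Y] {g : X → Y} (hg : Continuous g) (hc : ∀ x, IsConnected {y | g x = g y}) :
    IsUscDecomposition (Setoid.ker g) := by
  refine ⟨fun x => ?_, fun x => ?_, fun x U hU hxU => ?_⟩
  · exact isClosed_eq continuous_const hg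
  · exact hc x
  · refine ⟨(g ⁻¹' (g '' Uᶜ))ᶜ, ?_, ?_, ?_, ?_⟩
    · rw [isOpen_compl_iff]
      exact ((hg.isClosedMap) _ hU.isClosed_compl).preimage hg
    · intro y hy
      rw [mem_compl_iff, mem_preimage]
      rintro ⟨z, hz, hzy⟩
      apply hz
      apply hxU
      have h1 : g x = g y := hy
      change g x = g z
      rw [h1, hzy]
    · intro y hy
      by_contra hyU
      exact hy ⟨y, hyU, rfl⟩
    · intro y hy z hyz hz
      apply hy
      have h1 : g y = g z := hyz
      rw [mem_preimage, h1]
      exact hz

/-- A compact connected space which injects continuously into the line is locally connected. -/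
theorem locallyConnected_of_inj_real {Y : Type} [TopologicalSpace Y] [CompactSpace Y]
    [PreconnectedSpace Y] {j : Y → ℝ} (hj : Continuous j) (hinj : Function.Injective j) :
    LocallyConnectedSpace Y := by
  have hemb : IsClosedEmbedding j := hj.isClosedEmbedding hinj
  have hord : OrdConnected (range j) := (isPreconnected_range hj).ordConnected
  rw [locallyConnectedSpace_iff_connected_subsets]
  intro y U hU
  rw [hemb.isInducing.nhds_eq_comap, mem_comap] at hU
  obtain ⟨V, hV, hVU⟩ := hU
  obtain ⟨ε, hε, hball⟩ := Metric.mem_nhds_iff.1 hV
  refine ⟨j ⁻¹' Metric.ball (j y) ε, ?_, ?_, fun z hz => hVU (hball hz)⟩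
  · exact hj.continuousAt (Metric.ball_mem_nhds _ hε)
  · rw [← hemb.isInducing.isPreconnected_image, image_preimage_eq_inter_range]
    have h2 : OrdConnected (Metric.ball (j y) ε ∩ range j) := by
      rw [Real.ball_eq_Ioo]
      exact ordConnected_Ioo.inter hord
    exact h2.isPreconnected

/-- Criterion for a Peano decomposition. -/
theorem isPeano_ker {X Y : Type} [TopologicalSpace X] [CompactSpace X] [MetricSpace Y]
    {g : X → Y} (hg : Continuous g) (hc : ∀ x, IsConnected {y | g x = g y})
    (hnull : ∀ ε > 0, {C : Set X | (∃ x, C = connectedComponent x) ∧
      ε < Metric.diam (g '' C)}.Finite)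
    (hlc : ∀ x : X, LocallyConnectedSpace (connectedComponent x)) :
    IsPeanoDecomposition (Setoid.ker g) := by
  refine ⟨isUsc_ker hg hc, ?_⟩
  set q : X → Quotient (Setoid.ker g) := Quotient.mk (Setoid.ker g) with hq
  have hqq : IsQuotientMap q := isQuotientMap_quotient_mk'
  let gb : Quotient (Setoid.ker g) → Y := Quotient.lift g (fun a b h => h)
  have hgbc : Continuous gb := hg.quotient_lift _
  have hgbi : Function.Injective gb := by
    intro a b
    induction a using Quotient.inductionOn with | h a => ?_
    induction b using Quotient.inductionOn with | h b => ?_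
    intro h
    exact Quotient.sound h
  have hgbq : ∀ x, gb (q x) = g x := fun x => rfl
  have hcomp : CompactSpace (Quotient (Setoid.ker g)) := inferInstance
  have hemb : IsClosedEmbedding gb := hgbc.isClosedEmbedding hgbi
  have hfib : ∀ y, IsConnected (q ⁻¹' {y}) := by
    intro y
    induction y using Quotient.inductionOn with | h a => ?_
    have : q ⁻¹' {(⟦a⟧ : Quotient (Setoid.ker g))} = {y | g a = g y} := by
      ext z
      rw [mem_preimage, mem_singleton_iff, mem_ofPred_eq]
      constructor
      · intro h
        exact (Quotient.exact h : g z = g a).symm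
      · intro h
        exact Quotient.sound (show g z = g a from h.symm)
    rw [this]
    exact hc a
  have hT2 : T2Space (Quotient (Setoid.ker g)) := hemb.isEmbedding.t2Space
  refine ⟨hcomp, ⟨MetricSpace.induced gb hgbi inferInstance, ?_, ?_⟩, ?_⟩
  · exact hemb.isInducing.eq_induced.symm
  · intro ε hε
    refine ((hnull ε hε).image (fun C => q '' C)).subset ?_
    rintro C ⟨⟨y, rfl⟩, hC⟩
    induction y using Quotient.inductionOn with | h a => ?_
    refine ⟨connectedComponent a, ⟨⟨a, rfl⟩, ?_⟩, ?_⟩
    · have h1 : q '' connectedComponent a = connectedComponent (q a) :=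
        hqq.image_connectedComponent hfib a
      have h2 : g '' connectedComponent a = gb '' connectedComponent (q a) := by
        rw [← h1, image_image]
        rfl
      rw [h2]
      refine lt_of_lt_of_le hC (le_of_eq ?_)
      simp only [Metric.diam]
      congr 1
      simp only [Metric.ediam]
      rw [iSup_image]
      congr 1
      ext x
      congr 1
      ext hx
      rw [iSup_image]
      rfl
    · exact hqq.image_connectedComponent hfib a
  · intro y _
    induction y using Quotient.inductionOn with | h a => ?_
    have h1 : q '' connectedComponent a = connectedComponent (q a) :=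
      hqq.image_connectedComponent hfib a
    have hmaps : MapsTo q (connectedComponent a) (connectedComponent (q a)) := by
      rw [← h1]; exact mapsTo_image _ _
    have hsurj : SurjOn q (connectedComponent a) (connectedComponent (q a)) := by
      rw [← h1]; exact surjOn_image _ _
    have : CompactSpace (connectedComponent a) :=
      isCompact_iff_compactSpace.1 isClosed_connectedComponent.isCompact
    have hcont : Continuous (hmaps.restrict q _ _) := hqq.continuous.restrict hmaps
    have hs : Function.Surjective (hmaps.restrict q _ _) := hmaps.restrict_surjective_iff.2 hsurj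
    have hquot : IsQuotientMap (hmaps.restrict q _ _) :=
      hcont.isClosedMap.isQuotientMap hcont hs
    have := hlc a
    exact hquot.isCoinducing.locallyConnectedSpace

end Pool.Agent.Helper24_Core
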