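import Pool.Agent.Helper24_Core.Planar

set_option autoImplicit false
set_option linter.unusedSectionVars false

open Set Topology Filter

namespace Pool.Agent.Helper24_Core

variable {X : Type} [TopologicalSpace X] [CompactSpace X] {i : X → ℝ × ℝ} {c : ℝ → ℝ}

theorem dist_G {c : ℝ → ℝ} {a b t : ℝ} {ε : ℝ} (h1 : |c a - c b| ≤ ε) (h2 : |a * t - b * t| ≤ ε)
    (hε : 0 ≤ ε) :
    dist (G c (a, t)) (G c (b, t)) ≤ ε := by
  unfold G
  rw [Prod.dist_eq, Prod.dist_eq]
  simp only [Real.dist_eq, sub_self, abs_zero]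
  exact max_le h1 (max_le hε h2)

namespace Data

variable (H : Data X i c)

include H

theorem null (ε : ℝ) (hε : 0 < ε) : {C : Set X | (∃ x, C = connectedComponent x) ∧
      ε < Metric.diam ((G c ∘ i) '' C)}.Finite := by
  obtain ⟨δ, hδ, hδ'⟩ := H.h2 ε hε
  -- a bound for the first coordinate
  obtain ⟨R, hR⟩ : ∃ R : ℝ, ∀ x, |(i x).1| ≤ R := by
    obtain ⟨R, hR⟩ := (isCompact_range H.cont).isBounded.subset_closedBall (0 : ℝ × ℝ)
    refine ⟨R, fun x => ?_⟩
    have h1 : i x ∈ Metric.closedBall (0 : ℝ × ℝ) R := hR ⟨x, rfl⟩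
    rw [mem_closedBall_zero_iff, Prod.norm_def] at h1
    exact (le_max_left _ _).trans h1
  -- uniform continuity
  have huc : UniformContinuousOn c (Icc (-R) R) :=
    isCompact_Icc.uniformContinuousOn_of_continuous H.ccont.continuousOn
  obtain ⟨ρ, hρ, hρ'⟩ := Metric.uniformContinuousOn_iff_le.1 huc ε hε
  set δ₁ : ℝ := min δ (ε / (2 * |R| + 1)) with hδ₁
  have hδ₁pos : 0 < δ₁ := lt_min hδ (by positivity)
  set ρ₁ : ℝ := min ρ ε with hρ₁
  have hρ₁pos : 0 < ρ₁ := lt_min hρ hε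
  -- the finite set of grid points
  let S : Set (ℝ × ℝ) := ((fun k : ℤ => (k : ℝ) * ρ₁) '' (Icc (-(⌈R / ρ₁⌉)) ⌈R / ρ₁⌉)) ×ˢ
    {t ∈ T | t = 0 ∨ δ₁ ≤ t}
  have hS : S.Finite := ((finite_Icc _ _).image _).prod (T_finite δ₁ hδ₁pos)
  have hS' : (i ⁻¹' S).Finite := hS.preimage H.inj.injOn
  refine (hS'.image fun x => connectedComponent x).subset ?_
  rintro C ⟨⟨x, rfl⟩, hC⟩
  have hxC : x ∈ connectedComponent x := mem_connectedComponent
  -- there are two distant points
  have key : ∃ y ∈ connectedComponent x, ∃ z ∈ connectedComponent x, (i y).1 ≤ (i z).1 ∧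
      ε < dist (G c (i y)) (G c (i z)) := by
    by_contra hcon
    push Not at hcon
    have : Metric.diam ((G c ∘ i) '' connectedComponent x) ≤ ε := by
      refine Metric.diam_le_of_forall_dist_le hε.le ?_
      rintro _ ⟨y, hy, rfl⟩ _ ⟨z, hz, rfl⟩
      rcases le_total (i y).1 (i z).1 with h | h
      · exact hcon y hy z hz h
      · rw [dist_comm]
        exact hcon z hz y hy h
    linarith
  obtain ⟨y, hy, z, hz, hle, hfar⟩ := key
  set t : ℝ := (i x).2 with ht
  have hty : i y = ((i y).1, t) := Prod.ext rfl (H.level hy)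
  have htz : i z = ((i z).1, t) := Prod.ext rfl (H.level hz)
  have htT : t ∈ T := H.lev x
  have ht0 : 0 ≤ t := T_nonneg htT
  have ht1 : t ≤ 1 / 5 := T_le htT
  have hyR := hR y
  have hzR := hR z
  rw [abs_le] at hyR hzR
  have hcle : c (i y).1 ≤ c (i z).1 := H.mono hle
  -- the level is not small
  have hlev : t = 0 ∨ δ₁ ≤ t := by
    by_contra hcon
    push Not at hcon
    have htpos : 0 < t := lt_of_le_of_ne ht0 (Ne.symm hcon.1)
    have h1 : c (i z).1 - c (i y).1 ≤ ε := by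
      refine hδ' t htpos (hcon.2.trans_le (min_le_left _ _)) _ _ hle fun s hs => ?_
      obtain ⟨w, hw, hw'⟩ := H.between hy hz hs
      exact ⟨w, hw'⟩
    have h2 : |(i y).1 * t - (i z).1 * t| ≤ ε := by
      rw [← sub_mul, abs_mul, abs_of_nonneg ht0]
      have h3 : |(i y).1 - (i z).1| ≤ 2 * |R| := by
        rw [abs_le]
        constructor <;> linarith [le_abs_self R]
      have h4 : t ≤ ε / (2 * |R| + 1) := hcon.2.le.trans (min_le_right _ _)
      calc |(i y).1 - (i z).1| * t ≤ (2 * |R| + 1) * t := by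
            apply mul_le_mul_of_nonneg_right _ ht0
            linarith
        _ ≤ (2 * |R| + 1) * (ε / (2 * |R| + 1)) := by
            apply mul_le_mul_of_nonneg_left h4 (by positivity)
        _ = ε := by field_simp
    have h3 : dist (G c (i y)) (G c (i z)) ≤ ε := by
      rw [hty, htz]
      refine dist_G ?_ h2 hε.le
      rw [abs_le]
      constructor <;> linarith
    linarith
  -- the points are far apart horizontally
  have hfar' : ρ₁ < (i z).1 - (i y).1 := by
    by_contra hcon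
    push Not at hcon
    have h1 : |c (i y).1 - c (i z).1| ≤ ε := by
      have := hρ' (i y).1 ⟨hyR.1, hyR.2⟩ (i z).1 ⟨hzR.1, hzR.2⟩ (by
        rw [Real.dist_eq, abs_sub_comm, abs_of_nonneg (by linarith)]
        exact hcon.trans (min_le_left _ _))
      rwa [Real.dist_eq] at this
    have h2 : |(i y).1 * t - (i z).1 * t| ≤ ε := by
      rw [← sub_mul, abs_mul, abs_of_nonneg ht0, abs_sub_comm, abs_of_nonneg (by linarith)]
      have h4 : ρ₁ ≤ ε := min_le_right _ _
      nlinarith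
    have h3 : dist (G c (i y)) (G c (i z)) ≤ ε := by
      rw [hty, htz]
      exact dist_G h1 h2 hε.le
    linarith
  -- a grid point in between
  set k : ℤ := ⌈(i y).1 / ρ₁⌉ with hk
  have hk1 : (i y).1 ≤ k * ρ₁ := by
    have := Int.le_ceil ((i y).1 / ρ₁)
    rwa [div_le_iff₀ hρ₁pos] at this
  have hk2 : (k : ℝ) * ρ₁ ≤ (i z).1 := by
    have := Int.ceil_lt_add_one ((i y).1 / ρ₁)
    rw [← hk] at this
    have h1 : (k : ℝ) * ρ₁ < ((i y).1 / ρ₁ + 1) * ρ₁ := mul_lt_mul_of_pos_right this hρ₁pos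
    have h2 : ((i y).1 / ρ₁ + 1) * ρ₁ = (i y).1 + ρ₁ := by field_simp
    linarith
  obtain ⟨w, hw, hw'⟩ := H.between hy hz ⟨hk1, hk2⟩
  refine ⟨w, ?_, ?_⟩
  · rw [mem_preimage, hw']
    refine ⟨⟨k, ⟨?_, ?_⟩, rfl⟩, htT, hlev⟩
    · have h1 : -R / ρ₁ ≤ (i y).1 / ρ₁ := by
        apply div_le_div_of_nonneg_right _ hρ₁pos.le
        linarith
      have h2 : ⌈-R / ρ₁⌉ ≤ k := Int.ceil_le_ceil h1
      have h3 : -⌈R / ρ₁⌉ ≤ ⌈-R / ρ₁⌉ := by
        rw [neg_div, Int.ceil_neg, neg_le_neg_iff]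
        exact Int.floor_le_ceil _
      exact h3.trans h2
    · apply Int.ceil_le_ceil
      apply div_le_div_of_nonneg_right _ hρ₁pos.le
      linarith
  · exact (connectedComponent_eq hw).symm

theorem isPeano : IsPeanoDecomposition (Setoid.ker (G c ∘ i)) :=
  isPeano_ker ((G_cont H.ccont).comp H.cont) H.fib H.null H.loc

end Data

end Pool.Agent.Helper24_Core
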