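import Mathlib

/-!
# Core decompositions of compacta, and lifts to a polygon

Definitions used in `MP_b18375_gt`.  A decomposition of a space is given as an equivalence
relation (a `Setoid`); its elements are the equivalence classes, its quotient space is
`Quotient D` with the quotient topology, and `D ≤ D'` says that `D` refines `D'`.
-/

set_option autoImplicit false

open Set

namespace Pool.Agent.Helper24_Core

/-- `D` is an upper semicontinuous decomposition of `X` into subcontinua: its elements are closed
and connected, and every open set `U` containing an element contains an open set `V`, containing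
the element, which is a union of elements. -/
structure IsUscDecomposition {X : Type} [TopologicalSpace X] (D : Setoid X) : Prop where
  isClosed : ∀ x, IsClosed {y | D x y}
  isConnected : ∀ x, IsConnected {y | D x y}
  usc : ∀ (x : X) (U : Set X), IsOpen U → {y | D x y} ⊆ U →
    ∃ V : Set X, IsOpen V ∧ {y | D x y} ⊆ V ∧ V ⊆ U ∧ ∀ y ∈ V, ∀ z, D y z → z ∈ V

/-- `X` is a Peano compactum: it is compact and metrizable, its components form a null sequence
with respect to a compatible metric (on a compact space this does not depend on the metric), and
its nondegenerate components are locally connected. -/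
def IsPeanoCompactum (X : Type) [t : TopologicalSpace X] : Prop :=
  CompactSpace X ∧
  (∃ m : MetricSpace X, m.toUniformSpace.toTopologicalSpace = t ∧
    ∀ ε > 0, {C : Set X | (∃ x, C = connectedComponent x) ∧ ε < Metric.diam C}.Finite) ∧
  ∀ x : X, (connectedComponent x).Nontrivial → LocallyConnectedSpace (connectedComponent x)

/-- `D` is a Peano decomposition of `X`. -/
def IsPeanoDecomposition {X : Type} [TopologicalSpace X] (D : Setoid X) : Prop :=
  IsUscDecomposition D ∧ IsPeanoCompactum (Quotient D)

/-- `D` is the core decomposition of `X`: the Peano decomposition refining all others. -/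
def IsCoreDecomposition {X : Type} [TopologicalSpace X] (D : Setoid X) : Prop :=
  IsPeanoDecomposition D ∧ ∀ D' : Setoid X, IsPeanoDecomposition D' → D ≤ D'

/-- The closed unit square in the complex plane. -/
def square : Set ℂ := {z | 0 ≤ z.re ∧ z.re ≤ 1 ∧ 0 ≤ z.im ∧ z.im ≤ 1}

/-- The torus `ℝ/ℤ × ℝ/ℤ`. -/
abbrev Torus : Type := UnitAddCircle × UnitAddCircle

/-- The projection `z ↦ (Re z mod 1, Im z mod 1)` of the square onto the torus, which identifies
the opposite sides of the square by translations. -/
noncomputable def proj (z : square) : Torus :=
  (((z : ℂ).re : UnitAddCircle), ((z : ℂ).im : UnitAddCircle))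

/-- `D` is the finest upper semicontinuous decomposition of `K` into subcontinua that splits none
of the images under `proj` of the elements of the decomposition `E` of `proj ⁻¹ (K)`. -/
def IsLiftDecomposition (K : Set Torus) (E : Setoid (proj ⁻¹' K)) (D : Setoid K) : Prop :=
  IsLeast {D' : Setoid K | IsUscDecomposition D' ∧
    ∀ z w : proj ⁻¹' K, E z w → D' ⟨proj z, z.2⟩ ⟨proj w, w.2⟩} D

end Pool.Agent.Helper24_Core
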