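import Pool.Agent.Helper24_Core.Torus

set_option autoImplicit false
set_option linter.unusedSectionVars false

open Set Topology Filter

namespace Pool.Agent.Helper24_Core

variable {c f : ℝ → ℝ} (P : Profile c f)

/-- The function whose fibres are collapsed in the lifted compactum. -/
noncomputable def c₁ (c : ℝ → ℝ) (x : ℝ) : ℝ := c x + max (x - 1) 0

include P

theorem uniform_gap (ε : ℝ) (hε : 0 < ε) : ∃ δ > 0, ∀ u v, 0 ≤ u → v ≤ 1 → ε < v - u →
    ∃ x ∈ Icc u v, δ ≤ f x := by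
  obtain ⟨n, hn⟩ := exists_nat_gt (2 / ε)
  have hn0 : (0 : ℝ) < n := lt_trans (by positivity) hn
  have hnpos : 0 < n := by exact_mod_cast hn0
  have h1 : ∀ k : ℕ, ∃ x ∈ Ioo ((k : ℝ) / n) ((k + 1) / n), 0 < f x := fun k =>
    P.dense _ _ (by
      apply div_lt_div_of_pos_right _ hn0
      linarith)
  choose x hx hfx using h1
  obtain ⟨k₀, hk₀, hmin⟩ := (Finset.range n).exists_min_image (fun k => f (x k))
    ⟨0, Finset.mem_range.2 hnpos⟩
  refine ⟨f (x k₀), hfx k₀, ?_⟩
  intro u v hu hv huv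
  -- the cell
  set k : ℕ := ⌈u * n⌉₊ with hk
  have hk1 : u * n ≤ k := Nat.le_ceil _
  have hk2 : (k : ℝ) < u * n + 1 := Nat.ceil_lt_add_one (by positivity)
  have h2n : 2 < ε * n := by
    rw [div_lt_iff₀ hε] at hn
    linarith
  have h3 : ((k : ℝ) + 1) < v * n := by
    have : ε * n < (v - u) * n := mul_lt_mul_of_pos_right huv hn0
    nlinarith
  have h4 : k < n := by
    have h5 : (k : ℝ) < n := by nlinarith
    exact_mod_cast h5
  refine ⟨x k, ⟨?_, ?_⟩, hmin k (Finset.mem_range.2 h4)⟩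
  · have h6 : u ≤ k / n := by
      rw [le_div_iff₀ hn0]
      exact hk1
    exact h6.trans (hx k).1.le
  · have h6 : ((k : ℝ) + 1) / n ≤ v := by
      rw [div_le_iff₀ hn0]
      exact h3.le
    exact (hx k).2.le.trans h6

theorem c₁_first {x : ℝ} (hx : x ≤ 1) : c₁ c x = c x := by
  unfold c₁
  rw [max_eq_right (by linarith), add_zero]

theorem c₁_second {x : ℝ} (hx : 1 ≤ x) : c₁ c x = c (3 / 4) + (x - 1) := by
  unfold c₁
  rw [max_eq_left (by linarith), P.right x (by linarith)]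

theorem dataL {X : Type} [TopologicalSpace X] {i : X → ℝ × ℝ} (hi : Continuous i)
    (hinj : Function.Injective i) (hr : range i = N f) : Data X i (c₁ c) := by
  have hN : ∀ s t, (s, t) ∈ range i ↔ (t ∈ T ∧ ((s ∈ Icc (1 / 4 : ℝ) (3 / 4) ∧ t ≤ f s) ∨
    (s - 1 ∈ Icc (1 / 4 : ℝ) (3 / 4) ∧ f (s - 1) ≤ t))) := by
    intro s t
    rw [hr]
    rfl
  have h0 : ∀ a b : ℝ, a ≤ b → (a, (0 : ℝ)) ∈ range i → (b, (0 : ℝ)) ∈ range i →
      c₁ c a = c₁ c b → a = b ∨ (1 / 4 ≤ a ∧ b ≤ 3 / 4 ∧ c a = c b) := by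
    intro a b hab ha hb hc
    rw [hN] at ha hb
    rcases ha.2 with ⟨⟨ha1, ha2⟩, -⟩ | ⟨⟨ha1, ha2⟩, -⟩ <;>
      rcases hb.2 with ⟨⟨hb1, hb2⟩, -⟩ | ⟨⟨hb1, hb2⟩, -⟩
    · right
      rw [c₁_first P (by linarith), c₁_first P (by linarith)] at hc
      exact ⟨ha1, hb2, hc⟩
    · exfalso
      rw [c₁_first P (by linarith), c₁_second P (by linarith)] at hc
      have := P.mono ha2
      linarith
    · exfalso
      linarith
    · left
      rw [c₁_second P (by linarith), c₁_second P (by linarith)] at hc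
      linarith
  refine { cont := hi, inj := hinj, lev := ?_, ccont := ?_, mono := ?_, h1 := ?_, h2 := ?_,
           h3 := ?_ }
  · intro x
    have : i x ∈ N f := by rw [← hr]; exact ⟨x, rfl⟩
    exact this.1
  · unfold c₁
    exact P.ccont.add ((continuous_id.sub continuous_const).max continuous_const)
  · intro x y hxy
    unfold c₁
    have h1 := P.mono hxy
    have h2 : max (x - 1) 0 ≤ max (y - 1) 0 := max_le_max (by linarith) le_rfl
    linarith
  · intro a b hab ha hb hc s hs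
    rcases h0 a b hab ha hb hc with rfl | ⟨h1, h2, -⟩
    · rw [show s = a from le_antisymm hs.2 hs.1]
      exact ha
    · rw [hN]
      exact ⟨((hN _ _).1 ha).1, Or.inl ⟨⟨h1.trans hs.1, hs.2.trans h2⟩, P.nonneg s⟩⟩
  · intro ε hε
    obtain ⟨δ, hδ, hgap⟩ := uniform_gap P ε hε
    refine ⟨δ, hδ, ?_⟩
    intro t ht0 htδ a b hab h
    have ha := (hN _ _).1 (h a ⟨le_rfl, hab⟩)
    have hb := (hN _ _).1 (h b ⟨hab, le_rfl⟩)
    rcases ha.2 with ⟨⟨ha1, ha2⟩, -⟩ | ⟨⟨ha1, ha2⟩, -⟩ <;>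
      rcases hb.2 with ⟨⟨hb1, hb2⟩, -⟩ | ⟨⟨hb1, hb2⟩, -⟩
    · rw [c₁_first P (by linarith), c₁_first P (by linarith)]
      have : c a = c b := by
        refine P.eq_of_pos a b hab fun x hx => ?_
        rcases ((hN _ _).1 (h x hx)).2 with ⟨-, h3⟩ | ⟨⟨h3, -⟩, -⟩
        · linarith
        · exfalso
          linarith [hx.2]
      linarith
    · exfalso
      have h1 := (hN _ _).1 (h 1 ⟨by linarith, by linarith⟩)
      rcases h1.2 with ⟨⟨-, h3⟩, -⟩ | ⟨⟨h3, -⟩, -⟩
      · norm_num at h3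
      · norm_num at h3
    · exfalso
      linarith
    · rw [c₁_second P (by linarith), c₁_second P (by linarith)]
      by_contra hcon
      push Not at hcon
      obtain ⟨x, hx, hfx⟩ := hgap (a - 1) (b - 1) (by linarith) (by linarith) (by linarith)
      have h1 := (hN _ _).1 (h (x + 1) ⟨by linarith [hx.1], by linarith [hx.2]⟩)
      rcases h1.2 with ⟨⟨-, h3⟩, -⟩ | ⟨-, h3⟩
      · linarith [hx.1]
      · rw [add_sub_cancel_right] at h3
        linarith
  · intro a b hab ha hb hc a' b' haa' hab' hbb' η hη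
    rcases h0 a b hab.le ha hb hc with rfl | ⟨h1, h2, h3⟩
    · exact absurd hab (lt_irrefl _)
    · have hpos := P.pos_of_eq a b h3
      obtain ⟨m, hm, hmin⟩ := (isCompact_Icc (a := a') (b := b')).exists_isMinOn
        ⟨a', le_rfl, hab'⟩ P.fcont.continuousOn
      have hfm : 0 < f m := hpos m ⟨haa'.trans_le hm.1, hm.2.trans_lt hbb'⟩
      obtain ⟨t, htT, ht0, ht⟩ := T_exists (min η (f m)) (lt_min hη hfm)
      refine ⟨t, ht0, ht.trans_le (min_le_left _ _), fun s hs => ?_⟩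
      rw [hN]
      refine ⟨htT, Or.inl ⟨⟨?_, ?_⟩, ?_⟩⟩
      · linarith [hs.1]
      · linarith [hs.2]
      · exact (ht.le.trans (min_le_right _ _)).trans (isMinOn_iff.1 hmin s hs)

omit P in
theorem dataK {X : Type} [TopologicalSpace X] {i : X → ℝ × ℝ} (hi : Continuous i)
    (hinj : Function.Injective i) (hr : range i = M) : Data X i (fun _ => 0) := by
  have hM : ∀ s t, (s, t) ∈ range i ↔ (s ∈ Icc (1 / 4 : ℝ) (3 / 4) ∧ t ∈ T) := by
    intro s t
    rw [hr]
    rfl
  refine { cont := hi, inj := hinj, lev := ?_, ccont := continuous_const,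
           mono := monotone_const, h1 := ?_, h2 := ?_, h3 := ?_ }
  · intro x
    have : i x ∈ M := by rw [← hr]; exact ⟨x, rfl⟩
    exact this.2
  · intro a b hab ha hb _ s hs
    rw [hM] at *
    exact ⟨⟨ha.1.1.trans hs.1, hs.2.trans hb.1.2⟩, ha.2⟩
  · intro ε hε
    exact ⟨1, one_pos, fun t _ _ a b _ _ => by simpa using hε.le⟩
  · intro a b hab ha hb _ a' b' haa' hab' hbb' η hη
    obtain ⟨t, htT, ht0, ht⟩ := T_exists η hη
    rw [hM] at ha hb
    refine ⟨t, ht0, ht, fun s hs => (hM _ _).2 ⟨⟨?_, ?_⟩, htT⟩⟩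
    · linarith [ha.1.1, hs.1]
    · linarith [hb.1.2, hs.2]

theorem predataK {X : Type} [TopologicalSpace X] {i : X → ℝ × ℝ} (hi : Continuous i)
    (hinj : Function.Injective i) (hr : range i = M) : PreData X i c := by
  have hM : ∀ s t, (s, t) ∈ range i ↔ (s ∈ Icc (1 / 4 : ℝ) (3 / 4) ∧ t ∈ T) := by
    intro s t
    rw [hr]
    rfl
  refine { cont := hi, inj := hinj, lev := ?_, ccont := P.ccont,
           mono := P.mono, h1 := ?_ }
  · intro x
    have : i x ∈ M := by rw [← hr]; exact ⟨x, rfl⟩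
    exact this.2
  · intro a b hab ha hb _ s hs
    rw [hM] at *
    exact ⟨⟨ha.1.1.trans hs.1, hs.2.trans hb.1.2⟩, ha.2⟩

/-- The main result for a given profile. -/
theorem main_of_profile : ∃ (DK : Setoid (K f)) (DL : Setoid (proj ⁻¹' K f)) (Dτ : Setoid (K f)),
    IsCoreDecomposition DK ∧ IsCoreDecomposition DL ∧ IsLiftDecomposition (K f) DL Dτ ∧
      DK ≠ Dτ := by
  -- the compactum in the torus
  obtain ⟨iK, hiK, hiK'⟩ := exists_inverse (R := K f) M_compact (kap_cont P).continuousOn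
    (kap_inj P) rfl
  have hiKinj : Function.Injective iK := fun a b h =>
    Subtype.ext (by rw [← (hiK' a).2, ← (hiK' b).2, h])
  have hiKr : ∀ p (hp : p ∈ M), iK ⟨kap f p, p, hp, rfl⟩ = p := fun p hp =>
    kap_inj P (hiK' _).1 hp (hiK' _).2
  have hrK : range iK = M := by
    ext p
    constructor
    · rintro ⟨r, rfl⟩
      exact (hiK' r).1
    · intro hp
      exact ⟨_, hiKr p hp⟩
  have hcK : CompactSpace (K f) := isCompact_iff_compactSpace.1 (K_compact P)
  -- the lifted compactum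
  obtain ⟨jL, hjL, hjL'⟩ := exists_inverse (N_compact P.fcont) (lam_cont P) (lam_inj P)
    (lam_image P)
  let iL : (proj ⁻¹' K f) → ℝ × ℝ := fun z => jL ⟨z.1.1, z.1, z.2, rfl⟩
  have hiL : Continuous iL :=
    hjL.comp ((continuous_subtype_val.comp continuous_subtype_val).subtype_mk _)
  have hiL' : ∀ z, iL z ∈ N f ∧ lam f (iL z) = z.1.1 := fun z => hjL' _
  have hiLinj : Function.Injective iL := fun a b h =>
    Subtype.ext (Subtype.ext (by rw [← (hiL' a).2, ← (hiL' b).2, h]))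
  have hrL : range iL = N f := by
    ext p
    constructor
    · rintro ⟨r, rfl⟩
      exact (hiL' r).1
    · intro hp
      have h1 : lam f p ∈ Subtype.val '' (proj ⁻¹' K f) := by
        rw [← lam_image P]
        exact ⟨p, hp, rfl⟩
      obtain ⟨w, hw, hw'⟩ := h1
      refine ⟨⟨w, hw⟩, ?_⟩
      apply lam_inj P (hiL' _).1 hp
      rw [(hiL' _).2]
      exact hw'
  have hcL : CompactSpace (proj ⁻¹' K f) := by
    have h1 : IsClosed (proj ⁻¹' K f) := by
      refine (K_compact P).isClosed.preimage ?_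
      unfold proj
      exact ((AddCircle.continuous_mk' 1).comp (Complex.continuous_re.comp
        continuous_subtype_val)).prodMk ((AddCircle.continuous_mk' 1).comp
        (Complex.continuous_im.comp continuous_subtype_val))
    have h2 : IsCompact square := by
      have h3 : square = Icc (0 : ℝ) 1 ×ℂ Icc (0 : ℝ) 1 := by
        ext z
        unfold square
        rw [Complex.mem_reProdIm]
        exact ⟨fun h => ⟨⟨h.1, h.2.1⟩, h.2.2⟩, fun h => ⟨h.1.1, h.1.2, h.2⟩⟩
      rw [h3]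
      exact isCompact_Icc.reProdIm isCompact_Icc
    have : CompactSpace square := isCompact_iff_compactSpace.1 h2
    exact isCompact_iff_compactSpace.1 h1.isCompact
  have HK := dataK hiK hiKinj hrK
  have HL := dataL P hiL hiLinj hrL
  have HE := predataK P hiK hiKinj hrK
  -- the relation between the two
  have hrel : ∀ z : proj ⁻¹' K f, iK ⟨proj z, z.2⟩ = iL z ∨
      (1 < (iL z).1 ∧ iK ⟨proj z, z.2⟩ = ((iL z).1 - 1, (iL z).2)) := by
    intro z
    obtain ⟨hsq, h⟩ := lam_mem P (hiL' z).1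
    have hz : (⟨lam f (iL z), hsq⟩ : square) = z.1 := Subtype.ext (hiL' z).2
    rw [hz] at h
    rcases h with ⟨-, h1, h2⟩ | ⟨h0, h1, h2⟩
    · left
      rw [← hiKr _ h1]
      congr 1
      exact Subtype.ext h2
    · right
      refine ⟨h0, ?_⟩
      rw [← hiKr _ h1]
      congr 1
      exact Subtype.ext h2
  -- the lift decomposition
  let DL : Setoid (proj ⁻¹' K f) := Setoid.ker (G (c₁ c) ∘ iL)
  let π : (proj ⁻¹' K f) → K f := fun z => ⟨proj z, z.2⟩
  have hπ : Continuous π := by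
    refine Continuous.subtype_mk ?_ _
    unfold proj
    exact ((AddCircle.continuous_mk' 1).comp (Complex.continuous_re.comp
        (continuous_subtype_val.comp continuous_subtype_val))).prodMk
        ((AddCircle.continuous_mk' 1).comp
        (Complex.continuous_im.comp (continuous_subtype_val.comp continuous_subtype_val)))
  obtain ⟨Dτ, hDτ⟩ := exists_finest (Set.range fun z : proj ⁻¹' K f => π '' {w | DL z w}) (by
    rintro _ ⟨z, rfl⟩
    exact (HL.isPeano.1.isConnected z).isPreconnected.image _ hπ.continuousOn)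
  have hset : {D : Setoid (K f) | IsUscDecomposition D ∧
      ∀ A ∈ (Set.range fun z : proj ⁻¹' K f => π '' {w | DL z w}), ∀ x ∈ A, ∀ y ∈ A, D x y} =
      {D' : Setoid (K f) | IsUscDecomposition D' ∧
        ∀ z w : proj ⁻¹' K f, DL z w → D' ⟨proj z, z.2⟩ ⟨proj w, w.2⟩} := by
    ext D
    constructor
    · rintro ⟨h1, h2⟩
      refine ⟨h1, fun z w hzw => ?_⟩
      exact h2 _ ⟨z, rfl⟩ _ ⟨z, DL.refl z, rfl⟩ _ ⟨w, hzw, rfl⟩
    · rintro ⟨h1, h2⟩
      refine ⟨h1, ?_⟩
      rintro _ ⟨z, rfl⟩ _ ⟨w, hw, rfl⟩ _ ⟨w', hw', rfl⟩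
      exact h2 w w' (DL.trans (DL.symm hw) hw')
  rw [hset] at hDτ
  refine ⟨Setoid.ker (G (fun _ => 0) ∘ iK), DL, Dτ, HK.isCore, HL.isCore, hDτ, ?_⟩
  intro heq
  -- the comparison decomposition
  have hE : Setoid.ker (G c ∘ iK) ∈ {D' : Setoid (K f) | IsUscDecomposition D' ∧
        ∀ z w : proj ⁻¹' K f, DL z w → D' ⟨proj z, z.2⟩ ⟨proj w, w.2⟩} := by
    refine ⟨isUsc_ker ((G_cont P.ccont).comp hiK) HE.fib, ?_⟩
    intro z w hzw
    have hzw' : G (c₁ c) (iL z) = G (c₁ c) (iL w) := hzw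
    change G c (iK (π z)) = G c (iK (π w))
    obtain ⟨h1, h2, h3⟩ := HL.toPreData.G_eq hzw'
    by_cases h0 : (iL z).2 = 0
    swap
    · rw [h3 h0]
    have hzN := (hiL' z).1.2
    have hwN := (hiL' w).1.2
    have hcase : z = w ∨ ((iL z).1 ≤ 1 ∧ (iL w).1 ≤ 1) := by
      rcases le_or_gt (iL z).1 1 with hz | hz <;> rcases le_or_gt (iL w).1 1 with hw | hw
      · exact Or.inr ⟨hz, hw⟩
      · exfalso
        rw [c₁_first P hz, c₁_second P hw.le] at h2
        rcases hzN with ⟨⟨-, hz2⟩, -⟩ | ⟨⟨hz2, -⟩, -⟩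
        · have := P.mono hz2
          linarith
        · linarith
      · exfalso
        rw [c₁_first P hw, c₁_second P hz.le] at h2
        rcases hwN with ⟨⟨-, hw2⟩, -⟩ | ⟨⟨hw2, -⟩, -⟩
        · have := P.mono hw2
          linarith
        · linarith
      · left
        rw [c₁_second P hz.le, c₁_second P hw.le] at h2
        apply hiLinj
        exact Prod.ext (by linarith) h1
    rcases hcase with rfl | ⟨hz, hw⟩
    · rfl
    · have h5 : iK (π z) = iL z := by
        rcases hrel z with h | ⟨h, -⟩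
        · exact h
        · exact absurd h (not_lt.2 hz)
      have h6 : iK (π w) = iL w := by
        rcases hrel w with h | ⟨h, -⟩
        · exact h
        · exact absurd h (not_lt.2 hw)
      rw [h5, h6]
      rw [c₁_first P hz, c₁_first P hw] at h2
      have h9 : (iL w).2 = 0 := h1 ▸ h0
      unfold G
      rw [h0, h9, h2, mul_zero, mul_zero]
  have hle := hDτ.2 hE
  rw [← heq] at hle
  have hp : ((1 / 4 : ℝ), (0 : ℝ)) ∈ M := ⟨⟨le_rfl, by norm_num⟩, Or.inl rfl⟩
  have hq : ((3 / 4 : ℝ), (0 : ℝ)) ∈ M := ⟨⟨by norm_num, le_rfl⟩, Or.inl rfl⟩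
  have hrel1 : Setoid.ker (G (fun _ => 0) ∘ iK) ⟨kap f _, _, hp, rfl⟩ ⟨kap f _, _, hq, rfl⟩ := by
    change G (fun _ => 0) (iK _) = G (fun _ => 0) (iK _)
    rw [hiKr _ hp, hiKr _ hq]
    simp [G]
  have h7 := hle hrel1
  change G c (iK _) = G c (iK _) at h7
  rw [hiKr _ hp, hiKr _ hq] at h7
  have h8 : c (1 / 4) = c (3 / 4) := congrArg Prod.fst h7
  linarith [P.lt]

end Pool.Agent.Helper24_Core
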