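import Pool.Agent.Helper24_Core.Defs

set_option autoImplicit false

open Set Topology Filter

namespace Pool.Agent.Helper24_Core

/-- The graph of an upper semicontinuous decomposition of a compact Hausdorff space is closed. -/
theorem IsUscDecomposition.isClosed_graph {X : Type} [TopologicalSpace X] [CompactSpace X]
    [T2Space X] {D : Setoid X} (hD : IsUscDecomposition D) : IsClosed {p : X × X | D p.1 p.2} := by
  rw [← isOpen_compl_iff, isOpen_iff_mem_nhds]
  rintro ⟨x, y⟩ hxy
  have hxy' : ¬ D x y := hxy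
  have hdis : Disjoint {z | D x z} {z | D y z} := by
    rw [Set.disjoint_left]
    intro z hz hz'
    exact hxy' (D.trans hz (D.symm hz'))
  obtain ⟨U, V, hU, hV, hxU, hyV, hUV⟩ := normal_separation (hD.isClosed x) (hD.isClosed y) hdis
  obtain ⟨U', hU', hxU', hUU', hsat⟩ := hD.usc x U hU hxU
  obtain ⟨V', hV', hyV', hVV', hsat'⟩ := hD.usc y V hV hyV
  refine mem_of_superset (prod_mem_nhds (hU'.mem_nhds (hxU' (D.refl x)))
    (hV'.mem_nhds (hyV' (D.refl y)))) ?_
  rintro ⟨a, b⟩ ⟨ha, hb⟩ hab
  have h1 : b ∈ U' := hsat a ha b hab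
  exact Set.disjoint_left.1 hUV (hUU' h1) (hVV' hb)

/-- A closed equivalence relation on a compact Hausdorff space is upper semicontinuous. -/
theorem usc_of_isClosed_graph {X : Type} [TopologicalSpace X] [CompactSpace X]
    [T2Space X] {D : Setoid X} (hD : IsClosed {p : X × X | D p.1 p.2}) (x : X) (U : Set X)
    (hU : IsOpen U) (hxU : {y | D x y} ⊆ U) :
    ∃ V : Set X, IsOpen V ∧ {y | D x y} ⊆ V ∧ V ⊆ U ∧ ∀ y ∈ V, ∀ z, D y z → z ∈ V := by
  refine ⟨{y | ∀ z, D y z → z ∈ U}, ?_, ?_, ?_, ?_⟩
  · have h1 : {y | ∀ z, D y z → z ∈ U} = (Prod.fst '' ({p : X × X | D p.1 p.2} ∩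
        (Prod.snd ⁻¹' Uᶜ)))ᶜ := by
      ext y
      rw [mem_compl_iff]
      constructor
      · rintro h ⟨⟨a, b⟩, ⟨h1, h2⟩, rfl⟩
        exact h2 (h b h1)
      · intro h z hz
        by_contra hzU
        exact h ⟨(y, z), ⟨hz, hzU⟩, rfl⟩
    rw [h1, isOpen_compl_iff]
    exact continuous_fst.isClosedMap _ (hD.inter (hU.isClosed_compl.preimage continuous_snd))
  · intro y hy z hz
    exact hxU (D.trans hy hz)
  · intro y hy
    exact hy y (D.refl y)
  · intro y hy z hz w hw
    exact hy w (D.trans hz hw)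

/-- The finest upper semicontinuous decomposition into subcontinua which splits no set of a given
family of connected sets exists. -/
theorem exists_finest {X : Type} [TopologicalSpace X] [CompactSpace X] [T2Space X]
    (F : Set (Set X)) (hF : ∀ A ∈ F, IsPreconnected A) :
    ∃ D, IsLeast {D : Setoid X | IsUscDecomposition D ∧ ∀ A ∈ F, ∀ x ∈ A, ∀ y ∈ A, D x y} D := by
  classical
  let S : Set (Setoid X) := {D : Setoid X | IsClosed {p : X × X | D p.1 p.2} ∧
    ∀ A ∈ F, ∀ x ∈ A, ∀ y ∈ A, D x y}
  let R : Setoid X := sInf S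
  have hR : ∀ x y, R x y ↔ ∀ D ∈ S, D x y := fun x y => Iff.rfl
  have hRc : IsClosed {p : X × X | R p.1 p.2} := by
    have : {p : X × X | R p.1 p.2} = ⋂ D ∈ S, {p : X × X | D p.1 p.2} := by
      ext p
      rw [mem_iInter₂]
      exact hR p.1 p.2
    rw [this]
    exact isClosed_biInter fun D hD => hD.1
  have hRF : ∀ A ∈ F, ∀ x ∈ A, ∀ y ∈ A, R x y := fun A hA x hx y hy =>
    (hR x y).2 fun D hD => hD.2 A hA x hx y hy
  -- the components of the classes of `R`
  let cl : X → Set X := fun x => {y | R x y}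
  have hcl : ∀ x y, R x y → cl x = cl y := by
    intro x y h
    ext z
    exact ⟨fun hz => R.trans (R.symm h) hz, fun hz => R.trans h hz⟩
  let R' : Setoid X :=
    { r := fun x y => y ∈ connectedComponentIn (cl x) x
      iseqv := by
        refine ⟨fun x => mem_connectedComponentIn (R.refl x), ?_, ?_⟩
        · intro x y h
          have h1 : R x y := connectedComponentIn_subset _ _ h
          have h2 := connectedComponentIn_eq h
          rw [← hcl x y h1, ← h2]
          exact mem_connectedComponentIn (R.refl x)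
        · intro x y z h h'
          have h1 : R x y := connectedComponentIn_subset _ _ h
          have h2 := connectedComponentIn_eq h
          rw [← hcl x y h1, ← h2] at h'
          exact h' }
  have hR'R : ∀ x y, R' x y → R x y := fun x y h => connectedComponentIn_subset _ _ h
  have hclc : ∀ x, IsClosed (cl x) := fun x =>
    hRc.preimage (Continuous.prodMk_right x)
  have hR'c : IsClosed {p : X × X | R' p.1 p.2} := by
    rw [← isOpen_compl_iff, isOpen_iff_mem_nhds]
    rintro ⟨x, y⟩ hxy
    by_cases hR0 : R x y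
    swap
    · have : {p : X × X | R p.1 p.2}ᶜ ∈ 𝓝 (x, y) := hRc.isOpen_compl.mem_nhds hR0
      exact mem_of_superset this fun p hp h => hp (hR'R _ _ h)
    -- separate `x` and `y` in the class
    have hQ : CompactSpace (cl x) := isCompact_iff_compactSpace.1 (hclc x).isCompact
    have hxQ : x ∈ cl x := R.refl x
    have hyQ : y ∈ cl x := hR0
    have hy1 : (⟨y, hyQ⟩ : cl x) ∉ connectedComponent (⟨x, hxQ⟩ : cl x) := by
      intro h
      apply hxy
      change y ∈ connectedComponentIn (cl x) x
      rw [connectedComponentIn_eq_image hxQ]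
      exact ⟨_, h, rfl⟩
    rw [connectedComponent_eq_iInter_isClopen, mem_iInter] at hy1
    push Not at hy1
    obtain ⟨⟨W, hW, hxW⟩, hyW⟩ := hy1
    have hA : IsClosed (Subtype.val '' W : Set X) := (hclc x).isClosedMap_subtype_val _ hW.isClosed
    have hB : IsClosed (Subtype.val '' Wᶜ : Set X) :=
      (hclc x).isClosedMap_subtype_val _ hW.compl.isClosed
    have hAB : Disjoint (Subtype.val '' W : Set X) (Subtype.val '' Wᶜ) := by
      rw [Set.disjoint_image_iff Subtype.val_injective]
      exact disjoint_compl_right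
    obtain ⟨U, V, hU, hV, hAU, hBV, hUV⟩ := normal_separation hA hB hAB
    have hclUV : cl x ⊆ U ∪ V := by
      intro z hz
      by_cases hzW : (⟨z, hz⟩ : cl x) ∈ W
      · exact Or.inl (hAU ⟨_, hzW, rfl⟩)
      · exact Or.inr (hBV ⟨_, hzW, rfl⟩)
    obtain ⟨O, hO, hxO, hOUV, hsat⟩ := usc_of_isClosed_graph hRc x (U ∪ V) (hU.union hV) hclUV
    refine mem_of_superset (prod_mem_nhds ((hO.inter hU).mem_nhds ⟨hxO hxQ, hAU ⟨_, hxW, rfl⟩⟩)
      ((hO.inter hV).mem_nhds ⟨hxO hyQ, hBV ⟨_, hyW, rfl⟩⟩)) ?_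
    rintro ⟨a, b⟩ ⟨⟨haO, haU⟩, hbO, hbV⟩ hab
    have hC : IsPreconnected (connectedComponentIn (cl a) a) := isPreconnected_connectedComponentIn
    have hCsub : connectedComponentIn (cl a) a ⊆ U ∪ V := fun z hz =>
      hOUV (hsat a haO z (connectedComponentIn_subset _ _ hz))
    have hCU := hC.subset_left_of_subset_union hU hV hUV hCsub
      ⟨a, mem_connectedComponentIn (R.refl a), haU⟩
    exact Set.disjoint_left.1 hUV (hCU hab) hbV
  refine ⟨R', ⟨⟨?_, ?_, ?_⟩, ?_⟩, ?_⟩
  · intro x
    exact hR'c.preimage (Continuous.prodMk_right x)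
  · intro x
    have : {y | R' x y} = connectedComponentIn (cl x) x := rfl
    rw [this, isConnected_connectedComponentIn_iff]
    exact R.refl x
  · intro x U hU hxU
    exact usc_of_isClosed_graph hR'c x U hU hxU
  · intro A hA x hx y hy
    exact (hF A hA).subset_connectedComponentIn hx (fun z hz => hRF A hA x hx z hz) hy
  · rintro D ⟨hD1, hD2⟩
    intro x y h
    exact (hR x y).1 (hR'R x y h) D ⟨hD1.isClosed_graph, hD2⟩

end Pool.Agent.Helper24_Core
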