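import Pool.Agent.Helper24_Core.Core

set_option autoImplicit false
set_option linter.unusedSectionVars false

open Set Topology Filter

namespace Pool.Agent.Helper24_Core

variable {X : Type} [TopologicalSpace X] [CompactSpace X] {i : X → ℝ × ℝ} {c : ℝ → ℝ}

namespace Data

variable (H : Data X i c)

include H

theorem nbhd {Y : Type} [PseudoMetricSpace Y] {q : X → Y} (hq : Continuous q) (x : X) (ε : ℝ)
    (hε : 0 < ε) : ∃ η > 0, ∀ u, dist (i u) (i x) < η → dist (q u) (q x) < ε := by
  have h1 : q ⁻¹' Metric.ball (q x) ε ∈ 𝓝 x := hq.continuousAt (Metric.ball_mem_nhds _ hε)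
  rw [H.emb.isInducing.nhds_eq_comap, mem_comap] at h1
  obtain ⟨V, hV, hVU⟩ := h1
  obtain ⟨η, hη, hball⟩ := Metric.mem_nhds_iff.1 hV
  exact ⟨η, hη, fun u hu => hVU (hball hu)⟩

theorem collapse_inner {Y : Type} (tY : TopologicalSpace Y) (m : MetricSpace Y)
    (hm : m.toUniformSpace.toTopologicalSpace = tY) (q : X → Y) (hq : IsQuotientMap q)
    (hfib : ∀ y, IsConnected (q ⁻¹' {y}))
    (hnull : ∀ ε > 0, {C : Set Y | (∃ x, C = connectedComponent x) ∧ ε < Metric.diam C}.Finite)
    {a b : ℝ} (hthree : ∀ η > 0, ∃ t, 0 < t ∧ t < η ∧ ∀ s ∈ Icc a b, (s, t) ∈ range i)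
    (hab : a ≤ b) {x y : X} (hx : i x = (a, 0)) (hy : i y = (b, 0)) : q x = q y := by
  subst hm
  by_contra hne
  have hpos : 0 < dist (q x) (q y) := dist_pos.2 hne
  set ε : ℝ := dist (q x) (q y) / 2 with hε
  have hεpos : 0 < ε := by positivity
  obtain ⟨η₁, hη₁, hq₁⟩ := H.nbhd hq.continuous x (ε / 2) (by positivity)
  obtain ⟨η₂, hη₂, hq₂⟩ := H.nbhd hq.continuous y (ε / 2) (by positivity)
  set η : ℝ := min η₁ η₂ with hη
  have hηpos : 0 < η := lt_min hη₁ hη₂
  have hcY : CompactSpace Y := hq.surjective.compactSpace hq.continuous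
  let Θ : Set ℝ := {t | 0 < t ∧ t < η ∧ ∀ s ∈ Icc a b, (s, t) ∈ range i}
  have hΘinf : Θ.Infinite := by
    intro hfin
    have hne : Θ.Nonempty := by
      obtain ⟨t, ht1, ht2, ht3⟩ := hthree η hηpos
      exact ⟨t, ht1, ht2, ht3⟩
    obtain ⟨t₀, ht₀, hmin⟩ := hfin.exists_minimal hne
    obtain ⟨t, ht1, ht2, ht3⟩ := hthree t₀ ht₀.1
    have h1 : t ∈ Θ := ⟨ht1, ht2.trans ht₀.2.1, ht3⟩
    have h2 := hmin h1 ht2.le
    linarith
  have hu : ∀ t : ℝ, ∃ u : X, t ∈ Θ → i u = (a, t) := by
    intro t
    by_cases ht : t ∈ Θ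
    · obtain ⟨u, hu⟩ := ht.2.2 a ⟨le_rfl, hab⟩
      exact ⟨u, fun _ => hu⟩
    · exact ⟨x, fun h => absurd h ht⟩
  choose u hu using hu
  have hmaps : MapsTo (fun t => connectedComponent (q (u t))) Θ
      {C : Set Y | (∃ x, C = connectedComponent x) ∧ ε < Metric.diam C} := by
    intro t ht
    refine ⟨⟨_, rfl⟩, ?_⟩
    obtain ⟨v, hv⟩ := ht.2.2 b ⟨hab, le_rfl⟩
    have hut := hu t ht
    have hsame : v ∈ connectedComponent (u t) := by
      refine H.same_comp ?_ ?_ ?_
      · rw [hut, hv]
      · rw [hut, hv]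
        exact ht.2.2
      · rw [hut, hv]
        exact hab
    have h1 : q v ∈ connectedComponent (q (u t)) :=
      hq.continuous.image_connectedComponent_subset _ ⟨v, hsame, rfl⟩
    have h2 : dist (q (u t)) (q v) ≤ Metric.diam (connectedComponent (q (u t))) :=
      Metric.dist_le_diam_of_mem (Metric.isBounded_of_compactSpace) mem_connectedComponent h1
    refine lt_of_lt_of_le ?_ h2
    have h3 : dist (q (u t)) (q x) < ε / 2 := by
      apply hq₁
      rw [hut, hx, Prod.dist_eq]
      simp only [dist_self, Real.dist_eq, sub_zero, abs_of_pos ht.1]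
      exact max_lt hη₁ (ht.2.1.trans_le (min_le_left _ _))
    have h4 : dist (q v) (q y) < ε / 2 := by
      apply hq₂
      rw [hv, hy, Prod.dist_eq]
      simp only [dist_self, Real.dist_eq, sub_zero, abs_of_pos ht.1]
      exact max_lt hη₂ (ht.2.1.trans_le (min_le_right _ _))
    have h5 : dist (q x) (q y) ≤ dist (q x) (q (u t)) + dist (q (u t)) (q v) + dist (q v) (q y) :=
      dist_triangle4 _ _ _ _
    rw [dist_comm (q x) (q (u t))] at h5
    have h6 : dist (q x) (q y) = 2 * ε := by rw [hε]; ring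
    linarith
  have hinj : InjOn (fun t => connectedComponent (q (u t))) Θ := by
    intro t ht t' ht' heq
    simp only at heq
    have h1 : q (u t') ∈ connectedComponent (q (u t)) := by
      rw [heq]; exact mem_connectedComponent
    have h2 : u t' ∈ connectedComponent (u t) := by
      rw [← hq.preimage_connectedComponent hfib]
      exact h1
    have h3 := H.level h2
    rw [hu t ht, hu t' ht'] at h3
    exact h3.symm
  exact hΘinf (Set.Finite.of_injOn hmaps hinj (hnull ε hεpos))

theorem collapse {Y : Type} (tY : TopologicalSpace Y) (m : MetricSpace Y)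
    (hm : m.toUniformSpace.toTopologicalSpace = tY) (q : X → Y) (hq : IsQuotientMap q)
    (hfib : ∀ y, IsConnected (q ⁻¹' {y}))
    (hnull : ∀ ε > 0, {C : Set Y | (∃ x, C = connectedComponent x) ∧ ε < Metric.diam C}.Finite)
    {x y : X} (h : G c (i x) = G c (i y)) : q x = q y := by
  -- reduction to the case of ordered first coordinates
  wlog hle : (i x).1 ≤ (i y).1 generalizing x y with Hw
  · exact (Hw h.symm (le_of_lt (not_le.1 hle))).symm
  obtain ⟨h1, h2, h3⟩ := H.G_eq h
  by_cases hx : (i x).2 = 0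
  swap
  · rw [h3 hx]
  rcases eq_or_lt_of_le hle with hab | hab
  · rw [H.inj (Prod.ext hab h1)]
  set a := (i x).1 with ha
  set b := (i y).1 with hb
  have hxa : i x = (a, 0) := Prod.ext rfl hx
  have hyb : i y = (b, 0) := Prod.ext rfl (h1 ▸ hx)
  have hra : (a, (0 : ℝ)) ∈ range i := ⟨x, hxa⟩
  have hrb : (b, (0 : ℝ)) ∈ range i := ⟨y, hyb⟩
  have hr := H.h1 a b hle hra hrb h2
  have hthree := H.h3 a b hab hra hrb h2
  -- approximating points
  let e : ℕ → ℝ := fun n => (b - a) / ((n : ℝ) + 3)
  have hepos : ∀ n, 0 < e n := fun n => by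
    have : 0 < b - a := by linarith
    positivity
  have he3 : ∀ n, 3 * e n ≤ b - a := fun n => by
    have hn : (0 : ℝ) ≤ n := n.cast_nonneg
    have h0 : 0 < b - a := by linarith
    have : e n ≤ (b - a) / 3 := by
      apply div_le_div_of_nonneg_left h0.le (by norm_num)
      linarith
    linarith
  have helim : Tendsto e atTop (𝓝 0) := by
    have h4 : Tendsto (fun n : ℕ => (n : ℝ) + 3) atTop atTop :=
      tendsto_atTop_add_const_right _ _ tendsto_natCast_atTop_atTop
    exact h4.const_div_atTop (b - a)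
  have hu : ∀ n, ∃ u : X, i u = (a + e n, 0) := fun n =>
    hr _ ⟨by linarith [hepos n], by linarith [hepos n, he3 n]⟩
  have hv : ∀ n, ∃ v : X, i v = (b - e n, 0) := fun n =>
    hr _ ⟨by linarith [hepos n, he3 n], by linarith [hepos n]⟩
  choose u hu using hu
  choose v hv using hv
  have huv : ∀ n, q (u n) = q (v n) := by
    intro n
    refine H.collapse_inner tY m hm q hq hfib hnull (a := a + e n) (b := b - e n) ?_ ?_
      (hu n) (hv n)
    · exact hthree _ _ (by linarith [hepos n]) (by linarith [hepos n, he3 n])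
        (by linarith [hepos n])
    · linarith [hepos n, he3 n]
  have hulim : Tendsto u atTop (𝓝 x) := by
    rw [H.emb.isInducing.tendsto_nhds_iff]
    have : i ∘ u = fun n => (a + e n, (0 : ℝ)) := funext hu
    rw [this, hxa]
    have h5 : Tendsto (fun n => a + e n) atTop (𝓝 (a + 0)) := helim.const_add a
    rw [add_zero] at h5
    exact h5.prodMk_nhds tendsto_const_nhds
  have hvlim : Tendsto v atTop (𝓝 y) := by
    rw [H.emb.isInducing.tendsto_nhds_iff]
    have : i ∘ v = fun n => (b - e n, (0 : ℝ)) := funext hv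
    rw [this, hyb]
    have h5 : Tendsto (fun n => b - e n) atTop (𝓝 (b - 0)) := helim.const_sub b
    rw [sub_zero] at h5
    exact h5.prodMk_nhds tendsto_const_nhds
  subst hm
  have h6 : Tendsto (fun n => q (u n)) atTop (𝓝 (q x)) :=
    (hq.continuous.tendsto x).comp hulim
  have h7 : Tendsto (fun n => q (v n)) atTop (𝓝 (q y)) :=
    (hq.continuous.tendsto y).comp hvlim
  have h8 : (fun n => q (u n)) = fun n => q (v n) := funext huv
  rw [h8] at h6
  exact tendsto_nhds_unique h6 h7

/-- The decomposition by the fibres of the collapsing map is the core decomposition. -/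
theorem isCore : IsCoreDecomposition (Setoid.ker (G c ∘ i)) := by
  refine ⟨H.isPeano, ?_⟩
  rintro D' ⟨hD', -, ⟨m, hm, hnull⟩, -⟩
  intro x y hxy
  have hq : IsQuotientMap (Quotient.mk D') := isQuotientMap_quotient_mk'
  have hfib : ∀ z, IsConnected (Quotient.mk D' ⁻¹' {z}) := by
    intro z
    induction z using Quotient.inductionOn with | h z => ?_
    have : Quotient.mk D' ⁻¹' {(⟦z⟧ : Quotient D')} = {y | D' z y} := by
      ext w
      rw [mem_preimage, mem_singleton_iff, mem_ofPred_eq]
      constructor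
      · intro h
        exact D'.symm (Quotient.exact h)
      · intro h
        exact Quotient.sound (D'.symm h)
    rw [this]
    exact hD'.isConnected z
  exact Quotient.exact (H.collapse _ m hm (Quotient.mk D') hq hfib hnull hxy)

end Data

end Pool.Agent.Helper24_Core
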