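import Pool.Agent.Helper24_Core.Basic

set_option autoImplicit false
set_option linter.unusedSectionVars false

open Set Topology Filter

namespace Pool.Agent.Helper24_Core

/-- The set of levels `{0} ∪ {1/5, 1/6, ...}`. -/
def T : Set ℝ := insert 0 (range fun n : ℕ => 1 / ((n : ℝ) + 5))

theorem T_countable : T.Countable := (countable_range _).insert _

theorem T_nonneg {t : ℝ} (ht : t ∈ T) : 0 ≤ t := by
  rcases ht with rfl | ⟨n, rfl⟩
  · exact le_rfl
  · positivity

theorem T_le {t : ℝ} (ht : t ∈ T) : t ≤ 1 / 5 := by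
  rcases ht with rfl | ⟨n, rfl⟩
  · norm_num
  · have : (0 : ℝ) ≤ n := n.cast_nonneg
    simp only
    apply one_div_le_one_div_of_le <;> linarith

theorem T_finite (δ : ℝ) (hδ : 0 < δ) : {t ∈ T | t = 0 ∨ δ ≤ t}.Finite := by
  obtain ⟨N, hN⟩ := exists_nat_gt (1 / δ)
  refine ((finite_singleton (0 : ℝ)).union ((finite_Iio N).image
    fun n : ℕ => 1 / ((n : ℝ) + 5))).subset ?_
  rintro t ⟨ht, ht'⟩
  rcases ht with rfl | ⟨n, rfl⟩
  · exact Or.inl rfl
  · rcases ht' with h | h
    · exact Or.inl h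
    · right
      refine ⟨n, ?_, rfl⟩
      have hn : (0 : ℝ) ≤ n := n.cast_nonneg
      simp only at h
      have h1 : δ * ((n : ℝ) + 5) ≤ 1 := by
        rwa [le_div_iff₀ (by linarith)] at h
      have h2 : 1 < N * δ := by
        rwa [div_lt_iff₀ hδ] at hN
      have h3 : (n : ℝ) < N := by
        by_contra hcon
        push Not at hcon
        nlinarith
      exact_mod_cast h3

theorem T_exists (η : ℝ) (hη : 0 < η) : ∃ t ∈ T, 0 < t ∧ t < η := by
  obtain ⟨N, hN⟩ := exists_nat_gt (1 / η)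
  refine ⟨1 / ((N : ℝ) + 5), Or.inr ⟨N, rfl⟩, by positivity, ?_⟩
  have hn : (0 : ℝ) ≤ N := N.cast_nonneg
  rw [div_lt_iff₀ hη] at hN
  rw [div_lt_iff₀ (by linarith)]
  nlinarith

/-- Hypotheses on a compact set of horizontal pieces at levels in `T` (given as the range of `i`)
and on a monotone function `c` whose fibres on the level `0` are to be collapsed. -/
structure PreData (X : Type) [TopologicalSpace X] (i : X → ℝ × ℝ) (c : ℝ → ℝ) : Prop where
  cont : Continuous i
  inj : Function.Injective i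
  lev : ∀ x, (i x).2 ∈ T
  ccont : Continuous c
  mono : Monotone c
  h1 : ∀ a b, a ≤ b → (a, (0 : ℝ)) ∈ range i → (b, (0 : ℝ)) ∈ range i → c a = c b →
    ∀ s ∈ Icc a b, (s, (0 : ℝ)) ∈ range i

/-- Further hypotheses: the pieces at small positive levels are short, as seen by `c`, and the
fibres of `c` on the level `0` are approximated by pieces at positive levels. -/
structure Data (X : Type) [TopologicalSpace X] (i : X → ℝ × ℝ) (c : ℝ → ℝ) : Prop
    extends PreData X i c where
  h2 : ∀ ε > 0, ∃ δ > 0, ∀ t, 0 < t → t < δ → ∀ a b, a ≤ b →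
    (∀ s ∈ Icc a b, (s, t) ∈ range i) → c b - c a ≤ ε
  h3 : ∀ a b, a < b → (a, (0 : ℝ)) ∈ range i → (b, (0 : ℝ)) ∈ range i → c a = c b →
    ∀ a' b', a < a' → a' ≤ b' → b' < b → ∀ η > 0, ∃ t, 0 < t ∧ t < η ∧
      ∀ s ∈ Icc a' b', (s, t) ∈ range i

/-- The collapsing map. -/
noncomputable def G (c : ℝ → ℝ) (p : ℝ × ℝ) : ℝ × ℝ × ℝ := (c p.1, p.2, p.1 * p.2)

section

variable {X : Type} [TopologicalSpace X] [CompactSpace X] {i : X → ℝ × ℝ} {c : ℝ → ℝ}

theorem G_cont (hc : Continuous c) : Continuous (G c) := by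
  unfold G
  fun_prop

namespace PreData

variable (H : PreData X i c)

include H

theorem emb : IsClosedEmbedding i := H.cont.isClosedEmbedding H.inj

theorem level {x y : X} (h : y ∈ connectedComponent x) : (i y).2 = (i x).2 := by
  have h1 : IsPreconnected ((fun z => (i z).2) '' connectedComponent x) :=
    isPreconnected_connectedComponent.image _ (continuous_snd.comp H.cont).continuousOn
  have h2 : ((fun z => (i z).2) '' connectedComponent x) ⊆ T := by
    rintro _ ⟨z, _, rfl⟩
    exact H.lev z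
  have h3 := T_countable.isTotallyDisconnected _ h2 h1
  exact h3 ⟨y, h, rfl⟩ ⟨x, mem_connectedComponent, rfl⟩

theorem between {x y z : X} (hy : y ∈ connectedComponent x) (hz : z ∈ connectedComponent x)
    {s : ℝ} (hs : s ∈ Icc (i y).1 (i z).1) : ∃ w ∈ connectedComponent x, i w = (s, (i x).2) := by
  have h1 : IsPreconnected ((fun z => (i z).1) '' connectedComponent x) :=
    isPreconnected_connectedComponent.image _ (continuous_fst.comp H.cont).continuousOn
  obtain ⟨w, hw, hws⟩ := h1.ordConnected.out ⟨y, hy, rfl⟩ ⟨z, hz, rfl⟩ hs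
  exact ⟨w, hw, Prod.ext hws (H.level hw)⟩

theorem preconn {a b t : ℝ} (h : ∀ s ∈ Icc a b, (s, t) ∈ range i) :
    IsPreconnected (i ⁻¹' (Icc a b ×ˢ {t})) := by
  refine IsPreconnected.preimage_of_isClosedMap ?_ H.inj H.emb.isClosedMap ?_
  · exact isPreconnected_Icc.prod isPreconnected_singleton
  · rintro ⟨s, t'⟩ ⟨hs, ht'⟩
    rw [mem_singleton_iff] at ht'
    simp only at ht' hs
    rw [ht']
    exact h s hs

theorem same_comp {x y : X} (ht : (i x).2 = (i y).2)
    (h : ∀ s ∈ Icc (i x).1 (i y).1, (s, (i x).2) ∈ range i) (hle : (i x).1 ≤ (i y).1) :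
    y ∈ connectedComponent x := by
  refine (H.preconn h).subset_connectedComponent (x := x) ?_ ?_
  · exact ⟨⟨le_rfl, hle⟩, rfl⟩
  · exact ⟨⟨hle, le_rfl⟩, ht.symm⟩

theorem G_eq {x y : X} (h : G c (i x) = G c (i y)) :
    (i x).2 = (i y).2 ∧ c (i x).1 = c (i y).1 ∧ ((i x).2 ≠ 0 → x = y) := by
  unfold G at h
  rw [Prod.mk.injEq, Prod.mk.injEq] at h
  obtain ⟨h1, h2, h3⟩ := h
  refine ⟨h2, h1, fun h4 => H.inj (Prod.ext ?_ h2)⟩
  rw [← h2] at h3
  exact mul_right_cancel₀ h4 h3

theorem G_of {x y : X} (h : (i x).2 = 0) (h' : (i y).2 = 0) (hc : c (i x).1 = c (i y).1) :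
    G c (i x) = G c (i y) := by
  unfold G
  rw [h, h', hc, mul_zero, mul_zero]

theorem fib (x : X) : IsConnected {y | G c (i x) = G c (i y)} := by
  refine ⟨⟨x, rfl⟩, ?_⟩
  by_cases hx : (i x).2 = 0
  · -- wlog ordering
    have key : ∀ y z : X, G c (i x) = G c (i y) → G c (i x) = G c (i z) → (i y).1 ≤ (i z).1 →
        ∃ t, t ⊆ {y | G c (i x) = G c (i y)} ∧ y ∈ t ∧ z ∈ t ∧ IsPreconnected t := by
      intro y z hy hz hle
      obtain ⟨hy1, hy2, -⟩ := H.G_eq hy
      obtain ⟨hz1, hz2, -⟩ := H.G_eq hz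
      rw [hx] at hy1 hz1
      have hry : ((i y).1, (0 : ℝ)) ∈ range i := ⟨y, Prod.ext rfl hy1.symm⟩
      have hrz : ((i z).1, (0 : ℝ)) ∈ range i := ⟨z, Prod.ext rfl hz1.symm⟩
      have h4 := H.h1 _ _ hle hry hrz (hy2.symm.trans hz2)
      refine ⟨i ⁻¹' (Icc (i y).1 (i z).1 ×ˢ {0}), ?_, ⟨⟨le_rfl, hle⟩, hy1.symm⟩,
        ⟨⟨hle, le_rfl⟩, hz1.symm⟩, H.preconn h4⟩
      rintro w ⟨hw, hw'⟩
      refine H.G_of hx hw' ?_
      have h5 := H.mono hw.1
      have h6 := H.mono hw.2
      linarith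
    refine isPreconnected_of_forall_pair ?_
    intro y hy z hz
    rcases le_total (i y).1 (i z).1 with h | h
    · exact key y z hy hz h
    · obtain ⟨t, ht1, ht2, ht3, ht4⟩ := key z y hz hy h
      exact ⟨t, ht1, ht3, ht2, ht4⟩
  · have : {y | G c (i x) = G c (i y)} = {x} := by
      ext y
      constructor
      · intro h
        exact ((H.G_eq h).2.2 hx).symm
      · rintro rfl
        rfl
    rw [this]
    exact isPreconnected_singleton

theorem loc (x : X) : LocallyConnectedSpace (connectedComponent x) := by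
  have : CompactSpace (connectedComponent x) :=
    isCompact_iff_compactSpace.1 isClosed_connectedComponent.isCompact
  have : PreconnectedSpace (connectedComponent x) :=
    isPreconnected_iff_preconnectedSpace.1 isPreconnected_connectedComponent
  refine locallyConnected_of_inj_real (j := fun y => (i y).1)
    ((continuous_fst.comp H.cont).comp continuous_subtype_val) ?_
  rintro ⟨y, hy⟩ ⟨z, hz⟩ h
  apply Subtype.ext
  exact H.inj (Prod.ext h ((H.level hy).trans (H.level hz).symm))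

end PreData

end

end Pool.Agent.Helper24_Core
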