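import Pool.Agent.Helper24_Core.Staircase

set_option autoImplicit false

open Set Topology Filter

namespace Pool.Agent.Helper24_Core

/-- A staircase `c` and a nonnegative profile `f` which is positive exactly where `c` is locally
constant. -/
structure Profile (c f : ℝ → ℝ) : Prop where
  ccont : Continuous c
  mono : Monotone c
  lt : c (1 / 4) < c (3 / 4)
  right : ∀ x, 3 / 4 ≤ x → c x = c (3 / 4)
  fcont : Continuous f
  nonneg : ∀ x, 0 ≤ f x
  le : ∀ x, f x ≤ 1 / 4
  pos_of_eq : ∀ a b, c a = c b → ∀ x ∈ Ioo a b, 0 < f x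
  eq_of_pos : ∀ a b, a ≤ b → (∀ x ∈ Icc a b, 0 < f x) → c a = c b
  dense : ∀ a b, a < b → ∃ x ∈ Ioo a b, 0 < f x

theorem exists_profile : ∃ c f : ℝ → ℝ, Profile c f := by
  obtain ⟨c, hcont, hmono, hlt, hright, hleft, hgap⟩ := exists_staircase
  set Z : Set ℝ := {x | ¬ ∀ᶠ y in 𝓝 x, c y = c x} with hZ
  have hZc : IsClosed Z := by
    rw [← isOpen_compl_iff, isOpen_iff_mem_nhds]
    intro x hx
    have hx' : ∀ᶠ y in 𝓝 x, c y = c x := by
      by_contra h
      exact hx h
    filter_upwards [eventually_eventually_nhds.2 hx', hx'] with y hy hy'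
    intro h
    apply h
    filter_upwards [hy] with z hz
    rw [hz, hy']
  have hconst : ∀ a b, a ≤ b → (∀ x ∈ Icc a b, x ∉ Z) → c a = c b := by
    intro a b hab hno
    by_contra hne
    have hltab : c a < c b := lt_of_le_of_ne (hmono hab) hne
    obtain ⟨v, hv1, hv2⟩ := exists_between hltab
    obtain ⟨x₀, hx₀, hx₀v⟩ := intermediate_value_Icc hab hcont.continuousOn ⟨hv1.le, hv2.le⟩
    let S : Set ℝ := Icc a b ∩ c ⁻¹' {v}
    have hSc : IsClosed S := isClosed_Icc.inter (isClosed_singleton.preimage hcont)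
    have hSne : S.Nonempty := ⟨x₀, hx₀, hx₀v⟩
    have hSb : BddBelow S := ⟨a, fun y hy => hy.1.1⟩
    have hx : sInf S ∈ S := hSc.csInf_mem hSne hSb
    set x := sInf S with hxdef
    have hax : a < x := by
      rcases eq_or_lt_of_le hx.1.1 with h | h
      · exfalso
        have h1 : c x = v := hx.2
        rw [← h] at h1
        linarith
      · exact h
    apply hno x hx.1
    intro hev
    obtain ⟨ε, hε, hball⟩ := Metric.eventually_nhds_iff.1 hev
    set y := max a (x - ε / 2) with hy
    have hy1 : a ≤ y := le_max_left _ _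
    have hy2 : y < x := max_lt hax (by linarith)
    have hy3 : x - ε / 2 ≤ y := le_max_right _ _
    have h1 : c y = c x := by
      apply hball
      rw [Real.dist_eq, abs_lt]
      constructor <;> linarith
    have h2 : y ∈ S := ⟨⟨hy1, hy2.le.trans hx.1.2⟩, h1.trans hx.2⟩
    have h3 : x ≤ y := csInf_le hSb h2
    linarith
  have hne : Z.Nonempty := by
    by_contra h
    rw [not_nonempty_iff_eq_empty] at h
    have := hconst (1 / 4) (3 / 4) (by norm_num) (fun x _ => by rw [h]; exact notMem_empty x)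
    linarith
  have hpos : ∀ x, x ∉ Z → 0 < min (Metric.infDist x Z) (1 / 4) := by
    intro x hx
    refine lt_min ?_ (by norm_num)
    exact (hZc.notMem_iff_infDist_pos hne).1 hx
  have hnot : ∀ x, 0 < min (Metric.infDist x Z) (1 / 4) → x ∉ Z := by
    intro x hx hxZ
    rw [Metric.infDist_zero_of_mem hxZ] at hx
    have := min_le_left (0 : ℝ) (1 / 4)
    linarith
  have hmem : ∀ a b, c a = c b → ∀ x ∈ Ioo a b, x ∉ Z := by
    intro a b hab x hx hxZ
    apply hxZ
    have hca : ∀ y ∈ Ioo a b, c y = c a := fun y hy =>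
      le_antisymm ((hmono hy.2.le).trans hab.ge) (hmono hy.1.le)
    filter_upwards [isOpen_Ioo.mem_nhds hx] with y hy
    rw [hca y hy, hca x hx]
  refine ⟨c, fun x => min (Metric.infDist x Z) (1 / 4), hcont, hmono, hlt, hright, ?_, ?_, ?_, ?_,
    ?_, ?_⟩
  · exact (Metric.continuous_infDist_pt Z).min continuous_const
  · intro x
    exact le_min Metric.infDist_nonneg (by norm_num)
  · intro x
    exact min_le_right _ _
  · intro a b hab x hx
    exact hpos x (hmem a b hab x hx)
  · intro a b hab h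
    exact hconst a b hab fun x hx => hnot x (h x hx)
  · intro a b hab
    obtain ⟨a', b', h1, h2, h3, h4⟩ := hgap a b hab
    refine ⟨(a' + b') / 2, ⟨by linarith, by linarith⟩, hpos _ (hmem a' b' h4 _ ⟨by linarith, by linarith⟩)⟩

end Pool.Agent.Helper24_Core
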