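import Pool.Agent.Helper24_Core.Torus

set_option autoImplicit false

open Set Topology Filter

namespace Pool.Agent.Helper24_Core

theorem proj_continuous : Continuous proj := by
  unfold proj
  exact ((AddCircle.continuous_mk' 1).comp (Complex.continuous_re.comp
    continuous_subtype_val)).prodMk ((AddCircle.continuous_mk' 1).comp
    (Complex.continuous_im.comp continuous_subtype_val))

theorem square_compact : CompactSpace square := by
  have h2 : IsCompact square := by
    have h3 : square = Icc (0 : ℝ) 1 ×ℂ Icc (0 : ℝ) 1 := by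
      ext z
      unfold square
      rw [Complex.mem_reProdIm]
      exact ⟨fun h => ⟨⟨h.1, h.2.1⟩, h.2.2⟩, fun h => ⟨h.1.1, h.1.2, h.2⟩⟩
    rw [h3]
    exact isCompact_Icc.reProdIm isCompact_Icc
  exact isCompact_iff_compactSpace.1 h2

theorem exists_rep (u : UnitAddCircle) : ∃ x : ℝ, 0 ≤ x ∧ x ≤ 1 ∧ (x : UnitAddCircle) = u := by
  obtain ⟨y, rfl⟩ := QuotientAddGroup.mk_surjective u
  refine ⟨Int.fract y, Int.fract_nonneg y, (Int.fract_lt_one y).le, ?_⟩
  change ((Int.fract y : ℝ) : UnitAddCircle) = (y : UnitAddCircle)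
  rw [coe_eq_iff]
  exact ⟨⌊y⌋, by rw [Int.fract]; ring⟩

theorem proj_surjective : Function.Surjective proj := by
  rintro ⟨u, v⟩
  obtain ⟨x, hx0, hx1, rfl⟩ := exists_rep u
  obtain ⟨y, hy0, hy1, rfl⟩ := exists_rep v
  exact ⟨⟨⟨x, y⟩, hx0, hx1, hy0, hy1⟩, rfl⟩

theorem proj_isQuotientMap : IsQuotientMap proj := by
  have := square_compact
  exact proj_continuous.isClosedMap.isQuotientMap proj_continuous proj_surjective

theorem coe_eq_iff_of_unit {a b : ℝ} (ha0 : 0 ≤ a) (ha1 : a ≤ 1) (hb0 : 0 ≤ b) (hb1 : b ≤ 1) :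
    ((a : UnitAddCircle) = (b : UnitAddCircle)) ↔ (a = b ∨ |a - b| = 1) := by
  rw [coe_eq_iff]
  constructor
  · rintro ⟨k, hk⟩
    have h1 : (-2 : ℝ) < k := by rw [← hk]; linarith
    have h2 : (k : ℝ) < 2 := by rw [← hk]; linarith
    have h3 : -2 < k := by exact_mod_cast h1
    have h4 : k < 2 := by exact_mod_cast h2
    have h5 : k = -1 ∨ k = 0 ∨ k = 1 := by omega
    rcases h5 with rfl | rfl | rfl
    · right
      push_cast at hk
      rw [show a - b = 1 by linarith, abs_one]
    · left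
      push_cast at hk
      linarith
    · right
      push_cast at hk
      rw [show a - b = -1 by linarith, abs_neg, abs_one]
  · rintro (rfl | h)
    · exact ⟨0, by simp⟩
    · rcases abs_eq (zero_le_one) |>.1 h with h | h
      · exact ⟨-1, by push_cast; linarith⟩
      · exact ⟨1, by push_cast; linarith⟩

theorem proj_eq_iff (z w : square) : proj z = proj w ↔
    ((z : ℂ).re = (w : ℂ).re ∨ |(z : ℂ).re - (w : ℂ).re| = 1) ∧
    ((z : ℂ).im = (w : ℂ).im ∨ |(z : ℂ).im - (w : ℂ).im| = 1) := by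
  unfold proj
  rw [Prod.mk.injEq, coe_eq_iff_of_unit z.2.1 z.2.2.1 w.2.1 w.2.2.1,
    coe_eq_iff_of_unit z.2.2.2.1 z.2.2.2.2 w.2.2.2.1 w.2.2.2.2]

end Pool.Agent.Helper24_Core
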