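import Mathlib

set_option autoImplicit false

open Set Topology Filter MeasureTheory

namespace Pool.Agent.Helper24_Core

/-- A devil's staircase. -/
theorem exists_staircase : ∃ c : ℝ → ℝ, Continuous c ∧ Monotone c ∧ c (1 / 4) < c (3 / 4) ∧
    (∀ x, 3 / 4 ≤ x → c x = c (3 / 4)) ∧ (∀ x, x ≤ 1 / 4 → c x = c (1 / 4)) ∧
    ∀ a b, a < b → ∃ a' b', a < a' ∧ a' < b' ∧ b' < b ∧ c a' = c b' := by
  have hQ : volume (range ((↑) : ℚ → ℝ)) < ENNReal.ofReal (1 / 4) := by
    rw [(countable_range _).measure_zero]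
    simp
  obtain ⟨U, hQU, hU, hUvol⟩ := Set.exists_isOpen_lt_of_lt _ _ hQ
  set W : Set ℝ := Icc (1 / 4) (3 / 4) ∩ Uᶜ with hW
  have hWm : MeasurableSet W := measurableSet_Icc.inter hU.measurableSet.compl
  have hfin : ∀ s : Set ℝ, volume (W ∩ s) ≠ ⊤ := by
    intro s
    refine ne_top_of_le_ne_top ?_ (measure_mono (t := Icc (1 / 4 : ℝ) (3 / 4))
      (inter_subset_left.trans inter_subset_left))
    rw [Real.volume_Icc]
    exact ENNReal.ofReal_ne_top
  set c : ℝ → ℝ := fun x => (volume (W ∩ Iic x)).toReal with hc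
  have hdiff : ∀ a b, a ≤ b → c b = c a + (volume (W ∩ Ioc a b)).toReal := by
    intro a b hab
    have h1 : W ∩ Iic b = (W ∩ Iic a) ∪ (W ∩ Ioc a b) := by
      rw [← inter_union_distrib_left, Iic_union_Ioc_eq_Iic hab]
    have h2 : Disjoint (W ∩ Iic a) (W ∩ Ioc a b) :=
      ((Iic_disjoint_Ioc le_rfl).mono inter_subset_right inter_subset_right)
    simp only [hc]
    rw [h1, measure_union h2 (hWm.inter measurableSet_Ioc),
      ENNReal.toReal_add (hfin _) (hfin _)]
  have hmono : Monotone c := fun a b hab => by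
    rw [hdiff a b hab]
    linarith [ENNReal.toReal_nonneg (a := volume (W ∩ Ioc a b))]
  have hlip : ∀ a b, a ≤ b → c b - c a ≤ b - a := by
    intro a b hab
    rw [hdiff a b hab, add_sub_cancel_left]
    have h1 : volume (W ∩ Ioc a b) ≤ ENNReal.ofReal (b - a) := by
      rw [← Real.volume_Ioc]
      exact measure_mono inter_subset_right
    exact ENNReal.toReal_le_of_le_ofReal (by linarith) h1
  have hcont : Continuous c := by
    refine (LipschitzWith.of_dist_le_mul (K := 1) ?_).continuous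
    intro x y
    rw [NNReal.coe_one, one_mul, Real.dist_eq, Real.dist_eq]
    rcases le_total x y with h | h
    · rw [abs_sub_comm, abs_sub_comm x y, abs_of_nonneg (sub_nonneg.2 (hmono h)),
        abs_of_nonneg (sub_nonneg.2 h)]
      exact hlip x y h
    · rw [abs_of_nonneg (sub_nonneg.2 (hmono h)), abs_of_nonneg (sub_nonneg.2 h)]
      exact hlip y x h
  refine ⟨c, hcont, hmono, ?_, ?_, ?_, ?_⟩
  · rw [hdiff (1 / 4) (3 / 4) (by norm_num)]
    have h1 : (0 : ENNReal) < volume (W ∩ Ioc (1 / 4 : ℝ) (3 / 4)) := by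
      by_contra hcon
      rw [not_lt, nonpos_iff_eq_zero] at hcon
      have h2 : Ioc (1 / 4 : ℝ) (3 / 4) ⊆ (W ∩ Ioc (1 / 4 : ℝ) (3 / 4)) ∪ U := by
        intro x hx
        by_cases hxU : x ∈ U
        · exact Or.inr hxU
        · exact Or.inl ⟨⟨⟨hx.1.le, hx.2⟩, hxU⟩, hx⟩
      have h3 := (measure_mono h2).trans (measure_union_le (μ := volume) _ _)
      rw [hcon, zero_add, Real.volume_Ioc] at h3
      have h4 := h3.trans_lt hUvol
      rw [ENNReal.ofReal_lt_ofReal_iff (by norm_num)] at h4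
      norm_num at h4
    have h2 := ENNReal.toReal_pos h1.ne' (hfin _)
    linarith
  · intro x hx
    rw [hdiff _ _ hx]
    have : W ∩ Ioc (3 / 4 : ℝ) x = ∅ := by
      ext y
      simp only [mem_inter_iff, mem_empty_iff_false, iff_false, not_and]
      intro hy hy'
      exact absurd hy.1.2 (not_le.2 hy'.1)
    rw [this, measure_empty]
    simp
  · intro x hx
    rw [hdiff _ _ hx]
    have : volume (W ∩ Ioc x (1 / 4 : ℝ)) = 0 := by
      refine measure_mono_null (t := {(1 / 4 : ℝ)}) ?_ (by simp)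
      rintro y ⟨hy, hy'⟩
      exact le_antisymm hy'.2 hy.1.1
    rw [this]
    simp
  · intro a b hab
    obtain ⟨r, hr1, hr2⟩ := exists_rat_btwn hab
    have hrU : (r : ℝ) ∈ U := hQU ⟨r, rfl⟩
    obtain ⟨ε, hε, hball⟩ := Metric.isOpen_iff.1 hU r hrU
    set δ : ℝ := min (ε / 2) ((b - r) / 2) with hδ
    have hδpos : 0 < δ := lt_min (by positivity) (by linarith)
    have hδ1 : δ ≤ ε / 2 := min_le_left _ _
    have hδ2 : δ ≤ (b - r) / 2 := min_le_right _ _
    refine ⟨r, r + δ, hr1, by linarith, by linarith, ?_⟩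
    rw [hdiff (r : ℝ) (r + δ) (by linarith)]
    have : W ∩ Ioc (r : ℝ) (r + δ) = ∅ := by
      ext y
      simp only [mem_inter_iff, mem_empty_iff_false, iff_false, not_and]
      intro hy hy'
      apply hy.2
      apply hball
      rw [Metric.mem_ball, Real.dist_eq, abs_lt]
      constructor <;> linarith [hy'.1, hy'.2]
    rw [this, measure_empty]
    simp

end Pool.Agent.Helper24_Core
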