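import Pool.Agent.Helper24_Core.Minimal
import Pool.Agent.Helper24_Core.Finest
import Pool.Agent.Helper24_Core.Profile

set_option autoImplicit false
set_option linter.unusedSectionVars false

open Set Topology Filter

namespace Pool.Agent.Helper24_Core

theorem coe_eq_iff (a b : ℝ) : ((a : UnitAddCircle) = (b : UnitAddCircle)) ↔ ∃ k : ℤ, b - a = k := by
  rw [QuotientAddGroup.eq, AddSubgroup.mem_zmultiples_iff]
  constructor
  · rintro ⟨k, hk⟩
    refine ⟨k, ?_⟩
    rw [zsmul_eq_mul, mul_one] at hk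
    linarith
  · rintro ⟨k, hk⟩
    refine ⟨k, ?_⟩
    rw [zsmul_eq_mul, mul_one]
    linarith

theorem coe_inj_of_lt {a b : ℝ} (h : (a : UnitAddCircle) = (b : UnitAddCircle))
    (h1 : b - a < 1) (h2 : -1 < b - a) : a = b := by
  obtain ⟨k, hk⟩ := (coe_eq_iff a b).1 h
  rw [hk] at h1 h2
  have h3 : k < 1 := by exact_mod_cast h1
  have h4 : -1 < k := by exact_mod_cast h2
  have h5 : k = 0 := by omega
  rw [h5] at hk
  push_cast at hk
  linarith

theorem T_compact : IsCompact T := by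
  have h1 : Tendsto (fun n : ℕ => (n : ℝ) + 5) atTop atTop :=
    tendsto_atTop_add_const_right _ _ tendsto_natCast_atTop_atTop
  have h2 : Tendsto (fun n : ℕ => 1 / ((n : ℝ) + 5)) atTop (𝓝 0) := h1.const_div_atTop 1
  exact h2.isCompact_insert_range

/-- The model of the compactum in the torus. -/
def M : Set (ℝ × ℝ) := Icc (1 / 4) (3 / 4) ×ˢ T

theorem M_compact : IsCompact M := isCompact_Icc.prod T_compact

/-- The model of the lifted compactum in the square. -/
def N (f : ℝ → ℝ) : Set (ℝ × ℝ) :=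
  {p | p.2 ∈ T ∧ ((p.1 ∈ Icc (1 / 4 : ℝ) (3 / 4) ∧ p.2 ≤ f p.1) ∨
    (p.1 - 1 ∈ Icc (1 / 4 : ℝ) (3 / 4) ∧ f (p.1 - 1) ≤ p.2))}

theorem N_compact {f : ℝ → ℝ} (hf : Continuous f) : IsCompact (N f) := by
  have hcl : IsClosed (N f) := by
    have h1 : IsClosed {p : ℝ × ℝ | p.2 ∈ T} := T_compact.isClosed.preimage continuous_snd
    have h2 : IsClosed {p : ℝ × ℝ | p.1 ∈ Icc (1 / 4 : ℝ) (3 / 4)} :=
      isClosed_Icc.preimage continuous_fst
    have h3 : IsClosed {p : ℝ × ℝ | p.2 ≤ f p.1} :=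
      isClosed_le continuous_snd (hf.comp continuous_fst)
    have h4 : IsClosed {p : ℝ × ℝ | p.1 - 1 ∈ Icc (1 / 4 : ℝ) (3 / 4)} :=
      isClosed_Icc.preimage (continuous_fst.sub continuous_const)
    have h5 : IsClosed {p : ℝ × ℝ | f (p.1 - 1) ≤ p.2} :=
      isClosed_le (hf.comp (continuous_fst.sub continuous_const)) continuous_snd
    exact h1.inter ((h2.inter h3).union (h4.inter h5))
  refine IsCompact.of_isClosed_subset ((isCompact_Icc (a := (1 / 4 : ℝ)) (b := 7 / 4)).prod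
    T_compact) hcl ?_
  rintro ⟨x, t⟩ ⟨ht, h⟩
  refine ⟨?_, ht⟩
  rcases h with ⟨⟨h1, h2⟩, -⟩ | ⟨⟨h1, h2⟩, -⟩
  · simp only at h1 h2
    exact ⟨h1, by simp only; linarith⟩
  · simp only at h1 h2
    exact ⟨by simp only; linarith, by simp only; linarith⟩

section

variable {c f : ℝ → ℝ} (P : Profile c f)

/-- The parametrization of the compactum in the torus. -/
noncomputable def kap (f : ℝ → ℝ) (p : ℝ × ℝ) : Torus :=
  ((p.1 : UnitAddCircle), ((f p.1 - p.2 : ℝ) : UnitAddCircle))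

/-- The compactum in the torus. -/
def K (f : ℝ → ℝ) : Set Torus := kap f '' M

/-- The parametrization of the lifted compactum, before restricting to the square. -/
noncomputable def lam (f : ℝ → ℝ) (p : ℝ × ℝ) : ℂ :=
  if p.1 ≤ 1 then ⟨p.1, f p.1 - p.2⟩ else ⟨p.1 - 1, 1 + f (p.1 - 1) - p.2⟩

include P

theorem kap_cont : Continuous (kap f) := by
  unfold kap
  refine Continuous.prodMk ?_ ?_
  · exact (AddCircle.continuous_mk' 1).comp continuous_fst
  · exact (AddCircle.continuous_mk' 1).comp ((P.fcont.comp continuous_fst).sub continuous_snd)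

theorem kap_inj : InjOn (kap f) M := by
  rintro ⟨x, t⟩ ⟨⟨hx1, hx2⟩, ht⟩ ⟨x', t'⟩ ⟨⟨hx1', hx2'⟩, ht'⟩ h
  unfold kap at h
  rw [Prod.mk.injEq] at h
  simp only at h hx1 hx2 hx1' hx2' ht ht'
  have h1 : x = x' := coe_inj_of_lt h.1 (by linarith) (by linarith)
  subst h1
  have h2 := coe_inj_of_lt h.2 (by linarith [T_nonneg ht', T_le ht]) (by
    linarith [T_nonneg ht, T_le ht'])
  rw [show t = t' by linarith]

theorem K_compact : IsCompact (K f) := M_compact.image (kap_cont P)

omit P in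
theorem exists_inverse {A B : Type} [TopologicalSpace A] [TopologicalSpace B] [T2Space B]
    {S : Set A} (hS : IsCompact S) {φ : A → B} (hφ : ContinuousOn φ S) (hinj : InjOn φ S)
    {R : Set B} (hR : φ '' S = R) :
    ∃ i : R → A, Continuous i ∧ ∀ r, i r ∈ S ∧ φ (i r) = r := by
  have hcS : CompactSpace S := isCompact_iff_compactSpace.1 hS
  have hm : MapsTo φ S R := by rw [← hR]; exact mapsTo_image φ S
  have hs : Function.Surjective (hm.restrict φ S R) := by
    rw [hm.restrict_surjective_iff, ← hR]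
    exact surjOn_image φ S
  have hi : Function.Injective (hm.restrict φ S R) := by
    intro a b hab
    apply Subtype.ext
    exact hinj a.2 b.2 (congrArg Subtype.val hab)
  have hc : Continuous (hm.restrict φ S R) := hφ.mapsToRestrict hm
  let e : S ≃ₜ R := Continuous.homeoOfEquivCompactToT2 (f := Equiv.ofBijective _ ⟨hi, hs⟩) hc
  refine ⟨fun r => (e.symm r : A), continuous_subtype_val.comp e.symm.continuous, fun r => ?_⟩
  refine ⟨(e.symm r).2, ?_⟩
  have h1 : e (e.symm r) = r := e.apply_symm_apply r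
  exact congrArg Subtype.val h1

theorem lam_cont : ContinuousOn (lam f) (N f) := by
  rintro ⟨x, t⟩ ⟨ht, h⟩
  apply ContinuousAt.continuousWithinAt
  rcases h with ⟨⟨h1, h2⟩, -⟩ | ⟨⟨h1, h2⟩, -⟩
  · simp only at h1 h2
    have hc : ContinuousAt (fun p : ℝ × ℝ => (⟨p.1, f p.1 - p.2⟩ : ℂ)) (x, t) := by
      have h3 : Continuous fun p : ℝ × ℝ => (p.1, f p.1 - p.2) :=
        continuous_fst.prodMk ((P.fcont.comp continuous_fst).sub continuous_snd)
      exact (Complex.equivRealProdCLM.symm.continuous.comp h3).continuousAt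
    refine hc.congr ?_
    have h4 : {p : ℝ × ℝ | p.1 < 1} ∈ 𝓝 (x, t) :=
      (isOpen_lt continuous_fst continuous_const).mem_nhds (show x < 1 by linarith)
    filter_upwards [h4] with p hp
    unfold lam
    rw [if_pos (le_of_lt hp)]
  · simp only at h1 h2
    have hc : ContinuousAt (fun p : ℝ × ℝ => (⟨p.1 - 1, 1 + f (p.1 - 1) - p.2⟩ : ℂ)) (x, t) := by
      have h3 : Continuous fun p : ℝ × ℝ => (p.1 - 1, 1 + f (p.1 - 1) - p.2) :=
        (continuous_fst.sub continuous_const).prodMk ((continuous_const.add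
          (P.fcont.comp (continuous_fst.sub continuous_const))).sub continuous_snd)
      exact (Complex.equivRealProdCLM.symm.continuous.comp h3).continuousAt
    refine hc.congr ?_
    have h4 : {p : ℝ × ℝ | 1 < p.1} ∈ 𝓝 (x, t) :=
      (isOpen_lt continuous_const continuous_fst).mem_nhds (show 1 < x by linarith)
    filter_upwards [h4] with p hp
    unfold lam
    rw [if_neg (not_le.2 hp)]

theorem lam_inj : InjOn (lam f) (N f) := by
  rintro ⟨x, t⟩ ⟨ht, h⟩ ⟨x', t'⟩ ⟨ht', h'⟩ heq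
  have hT1 := T_nonneg ht
  have hT2 := T_nonneg ht'
  have hT3 := T_le ht
  have hT4 := T_le ht'
  unfold lam at heq
  rcases h with ⟨⟨h1, h2⟩, -⟩ | ⟨⟨h1, h2⟩, -⟩ <;> rcases h' with ⟨⟨h1', h2'⟩, -⟩ | ⟨⟨h1', h2'⟩, -⟩
    <;> simp only at h1 h2 h1' h2' heq hT1 hT2 hT3 hT4
  · rw [if_pos (by linarith), if_pos (by linarith), Complex.mk.injEq] at heq
    obtain ⟨h5, h6⟩ := heq
    subst h5
    rw [show t = t' by linarith]
  · rw [if_pos (by linarith), if_neg (by linarith), Complex.mk.injEq] at heq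
    obtain ⟨h5, h6⟩ := heq
    exfalso
    linarith [P.le x, P.nonneg (x' - 1)]
  · rw [if_neg (by linarith), if_pos (by linarith), Complex.mk.injEq] at heq
    obtain ⟨h5, h6⟩ := heq
    exfalso
    linarith [P.le x', P.nonneg (x - 1)]
  · rw [if_neg (by linarith), if_neg (by linarith), Complex.mk.injEq] at heq
    obtain ⟨h5, h6⟩ := heq
    have h7 : x = x' := by linarith
    subst h7
    rw [show t = t' by linarith]

/-- The relation between the two parametrizations. -/
theorem lam_mem {p : ℝ × ℝ} (hp : p ∈ N f) : ∃ h : lam f p ∈ square,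
    ((p.1 ≤ 1 ∧ p ∈ M ∧ proj ⟨lam f p, h⟩ = kap f p) ∨
      (1 < p.1 ∧ (p.1 - 1, p.2) ∈ M ∧ proj ⟨lam f p, h⟩ = kap f (p.1 - 1, p.2))) := by
  obtain ⟨x, t⟩ := p
  obtain ⟨ht, h⟩ := hp
  have hT1 := T_nonneg ht
  have hT3 := T_le ht
  rcases h with ⟨⟨h1, h2⟩, h3⟩ | ⟨⟨h1, h2⟩, h3⟩ <;> simp only at h1 h2 h3 ht hT1 hT3
  · have hle : x ≤ 1 := by linarith
    have hlam : lam f (x, t) = ⟨x, f x - t⟩ := by
      unfold lam
      rw [if_pos hle]
    rw [hlam]
    refine ⟨⟨?_, ?_, ?_, ?_⟩, Or.inl ⟨hle, ⟨⟨h1, h2⟩, ht⟩, rfl⟩⟩ <;> simp only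
    · linarith
    · linarith
    · linarith
    · linarith [P.le x]
  · have hlt : 1 < x := by linarith
    have hlam : lam f (x, t) = ⟨x - 1, 1 + f (x - 1) - t⟩ := by
      unfold lam
      rw [if_neg (not_le.2 hlt)]
    rw [hlam]
    refine ⟨⟨?_, ?_, ?_, ?_⟩, Or.inr ⟨hlt, ⟨⟨h1, h2⟩, ht⟩, ?_⟩⟩
    · simp only
      linarith
    · simp only
      linarith
    · simp only
      linarith [P.nonneg (x - 1)]
    · simp only
      linarith
    · unfold proj kap
      refine Prod.ext rfl ?_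
      simp only
      rw [coe_eq_iff]
      exact ⟨-1, by push_cast; ring⟩

theorem lam_image : lam f '' N f = Subtype.val '' (proj ⁻¹' K f) := by
  ext z
  constructor
  · rintro ⟨p, hp, rfl⟩
    obtain ⟨h, ⟨-, h1, h2⟩ | ⟨-, h1, h2⟩⟩ := lam_mem P hp
    · exact ⟨⟨_, h⟩, ⟨_, h1, h2.symm⟩, rfl⟩
    · exact ⟨⟨_, h⟩, ⟨_, h1, h2.symm⟩, rfl⟩
  · rintro ⟨⟨w, hw⟩, ⟨⟨x, t⟩, ⟨⟨hx1, hx2⟩, ht⟩, hk⟩, rfl⟩
    obtain ⟨hw1, hw2, hw3, hw4⟩ := hw
    unfold kap proj at hk
    rw [Prod.mk.injEq] at hk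
    simp only at hk hx1 hx2 ht
    have hT1 := T_nonneg ht
    have hT3 := T_le ht
    have hre : x = w.re := coe_inj_of_lt hk.1 (by linarith) (by linarith)
    obtain ⟨k, hk2⟩ := (coe_eq_iff _ _).1 hk.2
    have hk3 : (-1 : ℝ) < k := by
      rw [← hk2]
      linarith [P.le x]
    have hk4 : (k : ℝ) < 2 := by
      rw [← hk2]
      linarith [P.nonneg x]
    have hk5 : -1 < k := by exact_mod_cast hk3
    have hk6 : k < 2 := by exact_mod_cast hk4
    have hk7 : k = 0 ∨ k = 1 := by omega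
    rcases hk7 with rfl | rfl
    · push_cast at hk2
      refine ⟨(x, t), ⟨ht, Or.inl ⟨⟨hx1, hx2⟩, ?_⟩⟩, ?_⟩
      · simp only
        linarith
      · unfold lam
        rw [if_pos (by simp only; linarith)]
        apply Complex.ext
        · exact hre
        · simp only
          linarith
    · push_cast at hk2
      refine ⟨(x + 1, t), ⟨ht, Or.inr ⟨⟨?_, ?_⟩, ?_⟩⟩, ?_⟩
      · simp only
        linarith
      · simp only
        linarith
      · simp only [add_sub_cancel_right]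
        linarith
      · unfold lam
        rw [if_neg (by simp only; linarith)]
        apply Complex.ext
        · simp only [add_sub_cancel_right]
          exact hre
        · simp only [add_sub_cancel_right]
          linarith

end

end Pool.Agent.Helper24_Core
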